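import Pool.Agent.Lib.MP_d9b062_al_h64.Alg0
import Pool.Agent.Lib.MP_d9b062_al.Interface

/-!
# Task ALG: the statements for `V N`
-/

namespace Pool.Agent.Lib.MP_d9b062_al

open NormedSpace Filter
open scoped Topology

namespace H64

variable {N : ℕ}

/-- an entry of the matrix, as a linear functional -/
noncomputable def entry (ij : Fin N × Fin N) : Op N →ₗ[ℝ] ℝ where
  toFun T := T (EuclideanSpace.single ij.2 1) ij.1
  map_add' _ _ := rfl
  map_smul' _ _ := rfl

lemma entry_apply (ij : Fin N × Fin N) (T : Op N) :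
    entry ij T = T (EuclideanSpace.single ij.2 1) ij.1 := rfl

/-- matrix units -/
noncomputable def mUnit (ij : Fin N × Fin N) : Op N :=
  (innerSL ℝ (EuclideanSpace.single ij.2 (1 : ℝ))).smulRight (EuclideanSpace.single ij.1 1)

lemma V_sum (v : V N) : v = ∑ j, v j • (EuclideanSpace.single j (1 : ℝ) : V N) := by
  ext k
  simp [Finset.sum_apply, Pi.single_apply]

lemma mUnit_single (ij : Fin N × Fin N) (k : Fin N) :
    mUnit ij (EuclideanSpace.single k 1) = if ij.2 = k then EuclideanSpace.single ij.1 (1 : ℝ) else 0 := by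
  have : mUnit ij (EuclideanSpace.single k 1) =
    inner ℝ (EuclideanSpace.single ij.2 (1 : ℝ)) (EuclideanSpace.single k (1 : ℝ)) • EuclideanSpace.single ij.1 (1 : ℝ) := rfl
  rw [this, EuclideanSpace.inner_single_left]
  by_cases h : ij.2 = k
  · simp [h]
  · simp [h]

lemma op_ext {S T : Op N} (h : ∀ k, S (EuclideanSpace.single k 1) = T (EuclideanSpace.single k 1)) :
    S = T := by
  ext1 v
  rw [V_sum v, map_sum, map_sum]
  refine Finset.sum_congr rfl fun j _ => ?_
  rw [map_smul, map_smul, h]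

lemma mUnit_sum (T : Op N) : T = ∑ ij : Fin N × Fin N, entry ij T • mUnit ij := by
  apply op_ext
  intro k
  have e1 : (∑ ij : Fin N × Fin N, entry ij T • mUnit ij) (EuclideanSpace.single k 1) =
      ∑ ij : Fin N × Fin N, entry ij T • mUnit ij (EuclideanSpace.single k 1) := by
    rw [sum_apply]
    rfl
  rw [e1]
  simp only [mUnit_single]
  rw [Fintype.sum_prod_type]
  conv_lhs => rw [V_sum (T (EuclideanSpace.single k 1))]
  refine Finset.sum_congr rfl fun i _ => ?_
  rw [Finset.sum_eq_single k]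
  · simp [entry_apply]
  · intro b _ hb
    simp [hb]
  · simp

end H64

open H64

section ALG

variable {N : ℕ} {G : Subgroup (Op N)ˣ}

theorem polyVal_mem (p : MvPolynomial (Fin N × Fin N) ℝ) :
    (fun T : Op N => polyVal p T) ∈ PolyFun (Op N) := by
  induction p using MvPolynomial.induction_on with
  | C a => 
    simp only [polyVal, MvPolynomial.eval_C]
    exact PolyFun.const a
  | add p q hp hq =>
    have e : (fun T : Op N => polyVal (p + q) T) = fun T => polyVal p T + polyVal q T := by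
      ext T; simp only [polyVal, map_add]
    rw [e]
    exact PolyFun.add hp hq
  | mul_X p i hp =>
    have e : (fun T : Op N => polyVal (p * MvPolynomial.X i) T) = fun T => polyVal p T * entry i T := by
      ext T; simp only [polyVal, map_mul, MvPolynomial.eval_X, entry_apply]
    rw [e]
    exact PolyFun.mul hp (PolyFun.linear (entry i))

theorem exists_polyVal {F : Op N → ℝ} (hF : F ∈ PolyFun (Op N)) :
    ∃ p : MvPolynomial (Fin N × Fin N) ℝ, ∀ T, F T = polyVal p T := by
  refine PolyFun.induction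
    (p := fun F => ∃ p : MvPolynomial (Fin N × Fin N) ℝ, ∀ T, F T = polyVal p T)
    ?_ ?_ ?_ ?_ hF
  · intro φ
    refine ⟨∑ ij : Fin N × Fin N, MvPolynomial.C (φ (mUnit ij)) * MvPolynomial.X ij, ?_⟩
    intro T
    conv_lhs => rw [mUnit_sum T]
    rw [map_sum]
    simp only [polyVal, map_sum, map_mul, MvPolynomial.eval_C, MvPolynomial.eval_X]
    refine Finset.sum_congr rfl fun ij _ => ?_
    rw [map_smul, smul_eq_mul, mul_comm]
    rfl
  · intro c
    exact ⟨MvPolynomial.C c, fun T => by simp only [polyVal, MvPolynomial.eval_C]⟩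
  · rintro f g ⟨p, hp⟩ ⟨q, hq⟩
    exact ⟨p + q, fun T => by show f T + g T = _; rw [hp, hq]; simp only [polyVal, map_add]⟩
  · rintro f g ⟨p, hp⟩ ⟨q, hq⟩
    exact ⟨p * q, fun T => by show f T * g T = _; rw [hp, hq]; simp only [polyVal, map_mul]⟩

/-- The derivative of `t ↦ F (h * exp (t • Z))` at `0` is again polynomial. -/
theorem PolyFun.deriv_mem {F : Op N → ℝ} (hF : F ∈ PolyFun (Op N)) (Z : Op N) :
    (fun h : Op N => fderiv ℝ F h (h * Z)) ∈ PolyFun (Op N) := RD_mem Z hF

/-- A family of polynomials vanishing on `S` and stable under `F ↦ d/dt F (h * exp (t Z))`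
vanishes on `S * exp (t Z)` (analyticity). -/
theorem PolyFun.exp_eq_zero {I : Set (Op N → ℝ)} {S : Set (Op N)} {Z : Op N}
    (hI : ∀ F ∈ I, F ∈ PolyFun (Op N))
    (hder : ∀ F ∈ I, (fun h : Op N => fderiv ℝ F h (h * Z)) ∈ I)
    (h0 : ∀ F ∈ I, ∀ s ∈ S, F s = 0) :
    ∀ F ∈ I, ∀ s ∈ S, ∀ t : ℝ, F (s * exp (t • Z)) = 0 := exp_eq_zeroA hI hder h0

/-- the abstract version of the hypotheses -/
theorem IsConnectedSemisimple.sg (hG : IsConnectedSemisimple G) : SG G where
  closed g h := by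
    refine hG.closed g fun p hp => ?_
    exact h _ (polyVal_mem p) hp
  connected F hF h := by
    obtain ⟨p, hp⟩ := exists_polyVal hF
    intro g hg
    rw [hp]
    refine hG.connected p (fun l hl => ?_) g hg
    rw [← hp]
    exact h l hl
  star_mem := hG.star_mem

/-- `Z` is in the Lie algebra iff `F ↦ d/dt F (h * exp (t Z))` preserves the ideal of `G`. -/
theorem mem_lieAlg_iff (hG : IsConnectedSemisimple G) (Z : Op N) :
    Z ∈ lieAlg G ↔ ∀ F ∈ PolyFun (Op N), (∀ g ∈ G, F (g : Op N) = 0) →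
      ∀ g ∈ G, fderiv ℝ F (g : Op N) ((g : Op N) * Z) = 0 := mem_lieA_iff hG.sg

theorem lieAlg_add (hG : IsConnectedSemisimple G) {Y Z : Op N} (hY : Y ∈ lieAlg G)
    (hZ : Z ∈ lieAlg G) : Y + Z ∈ lieAlg G := (lieSub hG.sg).add_mem hY hZ

theorem lieAlg_smul {Z : Op N} (c : ℝ) (hZ : Z ∈ lieAlg G) : c • Z ∈ lieAlg G := by
  intro t
  obtain ⟨g, hg, h⟩ := hZ (t * c)
  exact ⟨g, hg, by rw [h, smul_smul]⟩

theorem lieAlg_bracket (hG : IsConnectedSemisimple G) {Y Z : Op N} (hY : Y ∈ lieAlg G)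
    (hZ : Z ∈ lieAlg G) : Y * Z - Z * Y ∈ lieAlg G := lieA_bracket hG.sg hY hZ

theorem lieAlg_star (hG : IsConnectedSemisimple G) {Z : Op N} (hZ : Z ∈ lieAlg G) :
    star Z ∈ lieAlg G := lieA_star hG.sg hZ

theorem lieAlg_conj {g : (Op N)ˣ} (hg : g ∈ G) {Z : Op N} (hZ : Z ∈ lieAlg G) :
    (g : Op N) * Z * ((g⁻¹ : (Op N)ˣ) : Op N) ∈ lieAlg G := lieA_conj hZ hg

/-- logarithm of `g* g` (the powers of a positive element of an algebraic group are in it) -/
theorem exists_log (hG : IsConnectedSemisimple G) {g : (Op N)ˣ} (hg : g ∈ G) :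
    ∃ Y ∈ lieAlg G, star Y = Y ∧ star (g : Op N) * g = exp ((2 : ℝ) • Y) ∧
      ∀ T : Op N, T * (star (g : Op N) * g) = (star (g : Op N) * g) * T → T * Y = Y * T :=
  exists_log2A hG.sg hg

/-- a connected group is Zariski irreducible -/
theorem zariski_irreducible (hG : IsConnectedSemisimple G) {F F' : Op N → ℝ}
    (hF : F ∈ PolyFun (Op N)) (hF' : F' ∈ PolyFun (Op N))
    (h : ∀ g ∈ G, F (g : Op N) * F' (g : Op N) = 0) :
    (∀ g ∈ G, F (g : Op N) = 0) ∨ ∀ g ∈ G, F' (g : Op N) = 0 :=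
  zariski_irreducibleA hG.sg hF hF' h

end ALG

end Pool.Agent.Lib.MP_d9b062_al
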