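import Pool.Agent.Lib.MP_d9b062_al.CellDefs

/-!
# Basic lemmas on cells, part 1: conformal factors and contraction factors
-/

set_option linter.unusedSectionVars false
set_option linter.unusedVariables false
set_option linter.unusedSimpArgs false

namespace Pool.Agent.Lib.MP_d9b062_al

open Filter
open scoped Topology

namespace H64B

section Abstract

variable {E : Type*} [NormedAddCommGroup E] [NormedSpace ℝ E]

lemma mul_apply' (S T : E →L[ℝ] E) (v : E) : (S * T) v = S (T v) := rfl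

/-- an operator that scales the norm on the image of `P` -/
lemma norm_mul_eq {l P : E →L[ℝ] E} (hP : P * P = P) (hP1 : ‖P‖ ≤ 1) (h0 : P ≠ 0) {t : ℝ}
    (h : ∀ v, ‖l (P v)‖ = Real.exp t * ‖P v‖) : ‖l * P‖ = Real.exp t := by
  apply le_antisymm
  · refine ContinuousLinearMap.opNorm_le_bound _ (Real.exp_nonneg _) fun v => ?_
    rw [mul_apply', h]
    refine mul_le_mul_of_nonneg_left ?_ (Real.exp_nonneg _)
    calc ‖P v‖ ≤ ‖P‖ * ‖v‖ := P.le_opNorm v
      _ ≤ 1 * ‖v‖ := mul_le_mul_of_nonneg_right hP1 (norm_nonneg _)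
      _ = ‖v‖ := one_mul _
  · obtain ⟨v, hv⟩ : ∃ v, P v ≠ 0 := by
      by_contra hc
      push Not at hc
      exact h0 (ContinuousLinearMap.ext fun v => by rw [hc v]; rfl)
    have hPP : P (P v) = P v := by rw [← mul_apply', hP]
    have h1 := (l * P).le_opNorm (P v)
    rw [mul_apply', hPP, h] at h1
    exact le_of_mul_le_mul_right h1 (norm_pos_iff.mpr hv)

lemma mul_le_of_exp {a b C : ℝ} (hC : 0 < C) (h : ∀ n : ℕ, Real.exp (n * a) ≤ C * Real.exp (n * b)) :
    a ≤ b := by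
  by_contra hab
  push Not at hab
  obtain ⟨n, hn⟩ := exists_nat_gt (Real.log C / (a - b))
  have h1 := h n
  rw [← Real.exp_log hC, ← Real.exp_add, Real.exp_le_exp] at h1
  have h2 : Real.log C < n * (a - b) := by
    rwa [div_lt_iff₀ (sub_pos.mpr hab)] at hn
  linarith

end Abstract

lemma sum_mul_le {κ : Type*} (s : Finset κ) (f g : κ → ℝ) (hf : ∀ k ∈ s, 0 ≤ f k)
    (hg : ∀ k ∈ s, 0 ≤ g k) : ∑ k ∈ s, f k * g k ≤ (∑ k ∈ s, f k) * ∑ k ∈ s, g k := by
  rw [Finset.sum_mul]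
  exact Finset.sum_le_sum fun k hk =>
    mul_le_mul_of_nonneg_left (Finset.single_le_sum hg hk) (hf k hk)

lemma exists_pos_le {κ : Type*} [Fintype κ] (f : κ → ℝ) (hf : ∀ k, 0 < f k) :
    ∃ a > 0, ∀ k, a ≤ f k := by
  classical
  have key : ∀ s : Finset κ, ∃ a > 0, ∀ k ∈ s, a ≤ f k := by
    intro s
    induction s using Finset.induction_on with
    | empty => exact ⟨1, one_pos, fun k hk => absurd hk (Finset.notMem_empty k)⟩
    | insert k s hk ih =>
      obtain ⟨a, ha, h⟩ := ih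
      refine ⟨min a (f k), lt_min ha (hf k), fun j hj => ?_⟩
      rcases Finset.mem_insert.mp hj with rfl | hj
      · exact min_le_right _ _
      · exact (min_le_left _ _).trans (h j hj)
  obtain ⟨a, ha, h⟩ := key Finset.univ
  exact ⟨a, ha, fun k => h k (Finset.mem_univ k)⟩

end H64B

open H64B

namespace Cell

variable {N : ℕ} {G : Subgroup (Op N)ˣ} {ι : Type} [Fintype ι] [LinearOrder ι] (c : Cell G ι)

section BASIC

variable {l l' g : (Op N)ˣ}

theorem norm_P_le (i : ι) : ‖c.P i‖ ≤ 1 := by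
  have h := CStarRing.norm_star_mul_self (x := c.P i)
  rw [c.star_P, c.grading.idem] at h
  rcases eq_or_lt_of_le (norm_nonneg (c.P i)) with h0 | h0
  · rw [← h0]; exact zero_le_one
  · have : ‖c.P i‖ * 1 = ‖c.P i‖ * ‖c.P i‖ := by rw [mul_one]; exact h
    exact (mul_left_cancel₀ h0.ne' this).symm.le

/-- the conformal factors are characterized by their defining property -/
theorem tau_eq_of {i : ι} (hi : c.P i ≠ 0) {T : Op N} {t : ℝ}
    (h : ∀ v, ‖T (c.P i v)‖ = Real.exp t * ‖c.P i v‖) : c.tau T i = t := by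
  rw [tau, if_neg hi, norm_mul_eq (c.grading.idem i) (c.norm_P_le i) hi h, Real.log_exp]

theorem tau_spec (hl : l ∈ c.L) (i : ι) (v : V N) :
    ‖(l : Op N) (c.P i v)‖ = Real.exp (c.tau l i) * ‖c.P i v‖ := by
  obtain ⟨τ, hτ, h⟩ := c.conf l hl.1 hl.2
  by_cases hi : c.P i = 0
  · rw [hi]; simp
  · rw [c.tau_eq_of hi (h i)]; exact h i v

theorem norm_mul_P (hl : l ∈ c.L) {i : ι} (hi : c.P i ≠ 0) :
    ‖(l : Op N) * c.P i‖ = Real.exp (c.tau l i) :=
  norm_mul_eq (c.grading.idem i) (c.norm_P_le i) hi (c.tau_spec hl i)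

theorem tau_of_P_eq {i : ι} (hi : c.P i = 0) (T : Op N) : c.tau T i = 0 := if_pos hi

theorem tau_o (hl : l ∈ c.L) : c.tau l c.o = 0 := by
  obtain ⟨τ, hτ, h⟩ := c.conf l hl.1 hl.2
  by_cases hi : c.P c.o = 0
  · exact c.tau_of_P_eq hi _
  · rw [c.tau_eq_of hi (h c.o), hτ]

theorem norm_o (hl : l ∈ c.L) {v : V N} (hv : c.P c.o v = v) : ‖(l : Op N) v‖ = ‖v‖ := by
  have h := c.tau_spec hl c.o v
  rw [hv, c.tau_o hl, Real.exp_zero, one_mul] at h
  exact h

theorem tau_one : c.tau (1 : Op N) = 0 := by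
  funext i
  by_cases hi : c.P i = 0
  · exact c.tau_of_P_eq hi _
  · refine c.tau_eq_of hi fun v => ?_
    rw [Pi.zero_apply, Real.exp_zero, one_mul]; rfl

theorem tau_mul (hl : l ∈ c.L) (hl' : l' ∈ c.L) :
    c.tau ((l : Op N) * l') = c.tau l + c.tau l' := by
  funext i
  by_cases hi : c.P i = 0
  · rw [Pi.add_apply, c.tau_of_P_eq hi, c.tau_of_P_eq hi, c.tau_of_P_eq hi, add_zero]
  · refine c.tau_eq_of hi fun v => ?_
    have h1 : (l' : Op N) (c.P i v) = c.P i ((l' : Op N) v) := by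
      rw [← mul_apply', ← mul_apply', hl'.2 i]
    rw [mul_apply', h1, c.tau_spec hl, ← h1, c.tau_spec hl', Pi.add_apply, Real.exp_add]
    ring

theorem tau_inv (hl : l ∈ c.L) : c.tau ((l⁻¹ : (Op N)ˣ) : Op N) = -c.tau l := by
  have h := c.tau_mul (c.L.inv_mem hl) hl
  rw [← Units.val_mul, inv_mul_cancel, Units.val_one, c.tau_one] at h
  exact eq_neg_of_add_eq_zero_left h.symm

theorem tau_pow (hl : l ∈ c.L) (n : ℕ) : c.tau ((l : Op N) ^ n) = (n : ℝ) • c.tau l := by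
  induction n with
  | zero => rw [pow_zero, c.tau_one, Nat.cast_zero, zero_smul]
  | succ n ih =>
    have h := c.tau_mul (c.L.pow_mem hl n) hl
    rw [Units.val_pow_eq_pow_val, ← pow_succ] at h
    rw [h, ih, Nat.cast_succ, add_smul, one_smul]

theorem tau_continuousAt (hl : l ∈ c.L) : ContinuousAt c.tau (l : Op N) := by
  rw [continuousAt_pi]
  intro i
  by_cases hi : c.P i = 0
  · have : (fun T : Op N => c.tau T i) = fun _ => 0 := by
      funext T; exact c.tau_of_P_eq hi T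
    rw [this]; exact continuousAt_const
  · have : (fun T : Op N => c.tau T i) = fun T => Real.log ‖T * c.P i‖ := by
      funext T; exact if_neg hi
    rw [this]
    have h1 : ContinuousAt (fun T : Op N => ‖T * c.P i‖) (l : Op N) :=
      (continuous_id.mul continuous_const).norm.continuousAt
    refine h1.log ?_
    rw [c.norm_mul_P hl hi]
    exact (Real.exp_pos _).ne'

theorem kap_nonneg (T : Op N) : 0 ≤ c.kap T := by
  refine Finset.sum_nonneg fun i _ => Finset.sum_nonneg fun j _ => ?_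
  split_ifs
  · exact Real.exp_nonneg _
  · exact le_rfl

open Classical in
/-- `kap` as a sum over pairs -/
theorem kap_eq (T : Op N) : c.kap T =
    ∑ p : ι × ι, if c.r p.1 p.2 then Real.exp (c.tau T p.1 - c.tau T p.2) else 0 := by
  rw [kap, Fintype.sum_prod_type]

theorem le_kap (T : Op N) {i j : ι} (h : c.r i j) :
    Real.exp (c.tau T i - c.tau T j) ≤ c.kap T := by
  classical
  rw [c.kap_eq]
  have h1 := Finset.single_le_sum (s := Finset.univ)
    (f := fun p : ι × ι => if c.r p.1 p.2 then Real.exp (c.tau T p.1 - c.tau T p.2) else 0)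
    (fun p _ => by split_ifs <;> [exact Real.exp_nonneg _; exact le_rfl])
    (Finset.mem_univ (i, j))
  dsimp only at h1
  rw [if_pos h] at h1
  exact h1

theorem kap_mul (hl : l ∈ c.L) (hl' : l' ∈ c.L) :
    c.kap ((l : Op N) * l') ≤ c.kap l * c.kap l' := by
  classical
  rw [c.kap_eq, c.kap_eq, c.kap_eq]
  refine le_trans (le_of_eq ?_) (sum_mul_le Finset.univ
    (fun p : ι × ι => if c.r p.1 p.2 then Real.exp (c.tau (l : Op N) p.1 - c.tau (l : Op N) p.2)
      else 0)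
    (fun p : ι × ι => if c.r p.1 p.2 then Real.exp (c.tau (l' : Op N) p.1 -
      c.tau (l' : Op N) p.2) else 0)
    (fun p _ => by split_ifs <;> [exact Real.exp_nonneg _; exact le_rfl])
    (fun p _ => by split_ifs <;> [exact Real.exp_nonneg _; exact le_rfl]))
  refine Finset.sum_congr rfl fun p _ => ?_
  split_ifs
  · rw [← Real.exp_add, c.tau_mul hl hl', Pi.add_apply, Pi.add_apply]
    congr 1; ring
  · rw [mul_zero]

theorem kap_pow (hl : l ∈ c.L) (hd : c.Dom (l : Op N)) :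
    ∃ C > 0, ∃ a > 0, ∀ n : ℕ, c.kap ((l : Op N) ^ n) ≤ C * Real.exp (-a * n) := by
  classical
  obtain ⟨a, ha, h⟩ := exists_pos_le
    (fun p : ι × ι => if c.r p.1 p.2 then c.tau (l : Op N) p.2 - c.tau (l : Op N) p.1 else 1)
    (fun p => by
      split_ifs with h
      · exact sub_pos.mpr (hd _ _ h)
      · exact one_pos)
  refine ⟨(Finset.univ : Finset (ι × ι)).card + 1, by positivity, a, ha, fun n => ?_⟩
  rw [c.kap_eq]
  calc ∑ p : ι × ι, (if c.r p.1 p.2 then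
        Real.exp (c.tau ((l : Op N) ^ n) p.1 - c.tau ((l : Op N) ^ n) p.2) else 0)
      ≤ ∑ p : ι × ι, Real.exp (-a * n) := by
        refine Finset.sum_le_sum fun p _ => ?_
        split_ifs with hr
        · rw [Real.exp_le_exp, c.tau_pow hl, Pi.smul_apply, Pi.smul_apply, smul_eq_mul,
            smul_eq_mul]
          have h1 := h p
          rw [if_pos hr] at h1
          have h2 : (0 : ℝ) ≤ n := Nat.cast_nonneg n
          nlinarith [mul_le_mul_of_nonneg_left h1 h2]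
        · exact Real.exp_nonneg _
    _ = (Finset.univ : Finset (ι × ι)).card * Real.exp (-a * n) := by
        rw [Finset.sum_const, nsmul_eq_mul]
    _ ≤ _ := by
        refine mul_le_mul_of_nonneg_right ?_ (Real.exp_nonneg _)
        linarith

/-- if `kap l < 1` then `l` is dominant -/
theorem dom_of_kap (T : Op N) (h : c.kap T < 1) : c.Dom T := by
  intro i j hr
  have h1 := (c.le_kap T hr).trans_lt h
  rw [Real.exp_lt_one_iff] at h1
  linarith

theorem norm_inv_mul_P (hl : l ∈ c.L) {i : ι} (hi : c.P i ≠ 0) :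
    ‖((l⁻¹ : (Op N)ˣ) : Op N) * c.P i‖ = Real.exp (-c.tau l i) := by
  rw [c.norm_mul_P (c.L.inv_mem hl) hi, c.tau_inv hl, Pi.neg_apply]

/-- conjugation of a lower block triangular operator -/
theorem norm_conj_le (hl : l ∈ c.L) {Z : Op N} (hZ : Supp c.P c.r Z) :
    ‖(l : Op N) * Z * ((l⁻¹ : (Op N)ˣ) : Op N)‖ ≤ c.kap l * ‖Z‖ := by
  classical
  have hli := (c.L.inv_mem hl).2
  have h1 : (l : Op N) * Z * ((l⁻¹ : (Op N)ˣ) : Op N) =
      ∑ p : ι × ι, (l : Op N) * (c.P p.1 * Z * c.P p.2) * ((l⁻¹ : (Op N)ˣ) : Op N) := by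
    rw [Fintype.sum_prod_type]
    have h2 : Z = ∑ i, ∑ j, c.P i * Z * c.P j := by
      conv_lhs => rw [c.grading.sum_mul Z]
      refine Finset.sum_congr rfl fun i _ => ?_
      exact c.grading.mul_sum _
    conv_lhs => rw [h2]
    simp only [Finset.mul_sum, Finset.sum_mul]
  rw [h1, c.kap_eq, Finset.sum_mul]
  refine (norm_sum_le _ _).trans (Finset.sum_le_sum fun p _ => ?_)
  split_ifs with hr
  · by_cases hi : c.P p.1 = 0
    · rw [hi, zero_mul, zero_mul, mul_zero, zero_mul, norm_zero]; positivity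
    by_cases hj : c.P p.2 = 0
    · rw [hj, mul_zero, mul_zero, zero_mul, norm_zero]; positivity
    have h3 : (l : Op N) * (c.P p.1 * Z * c.P p.2) * ((l⁻¹ : (Op N)ˣ) : Op N) =
        ((l : Op N) * c.P p.1) * Z * (((l⁻¹ : (Op N)ˣ) : Op N) * c.P p.2) := by
      rw [← hli p.2]; noncomm_ring
    rw [h3]
    calc ‖((l : Op N) * c.P p.1) * Z * (((l⁻¹ : (Op N)ˣ) : Op N) * c.P p.2)‖
        ≤ ‖(l : Op N) * c.P p.1‖ * ‖Z‖ * ‖((l⁻¹ : (Op N)ˣ) : Op N) * c.P p.2‖ :=
          (norm_mul_le _ _).trans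
            (mul_le_mul_of_nonneg_right (norm_mul_le _ _) (norm_nonneg _))
      _ = Real.exp (c.tau (l : Op N) p.1 - c.tau (l : Op N) p.2) * ‖Z‖ := by
          rw [c.norm_mul_P hl hi, c.norm_inv_mul_P hl hj, sub_eq_add_neg, Real.exp_add]; ring
  · rw [hZ _ _ hr, mul_zero, zero_mul, norm_zero, zero_mul]

/-- conjugation of an upper block triangular operator -/
theorem norm_conj_le' (hl : l ∈ c.L) {Z : Op N} (hZ : Supp c.P (fun i j => c.r j i) Z) :
    ‖((l⁻¹ : (Op N)ˣ) : Op N) * Z * (l : Op N)‖ ≤ c.kap l * ‖Z‖ := by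
  classical
  have hli := hl.2
  have h1 : ((l⁻¹ : (Op N)ˣ) : Op N) * Z * (l : Op N) =
      ∑ p : ι × ι, ((l⁻¹ : (Op N)ˣ) : Op N) * (c.P p.2 * Z * c.P p.1) * (l : Op N) := by
    rw [Fintype.sum_prod_type_right]
    have h2 : Z = ∑ i, ∑ j, c.P i * Z * c.P j := by
      conv_lhs => rw [c.grading.sum_mul Z]
      refine Finset.sum_congr rfl fun i _ => ?_
      exact c.grading.mul_sum _
    conv_lhs => rw [h2]
    simp only [Finset.mul_sum, Finset.sum_mul]
  rw [h1, c.kap_eq, Finset.sum_mul]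
  refine (norm_sum_le _ _).trans (Finset.sum_le_sum fun p _ => ?_)
  split_ifs with hr
  · by_cases hi : c.P p.1 = 0
    · rw [hi, mul_zero, mul_zero, zero_mul, norm_zero]; positivity
    by_cases hj : c.P p.2 = 0
    · rw [hj, zero_mul, zero_mul, mul_zero, zero_mul, norm_zero]; positivity
    have h3 : ((l⁻¹ : (Op N)ˣ) : Op N) * (c.P p.2 * Z * c.P p.1) * (l : Op N) =
        (((l⁻¹ : (Op N)ˣ) : Op N) * c.P p.2) * Z * ((l : Op N) * c.P p.1) := by
      rw [← hli p.1]; noncomm_ring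
    rw [h3]
    calc ‖(((l⁻¹ : (Op N)ˣ) : Op N) * c.P p.2) * Z * ((l : Op N) * c.P p.1)‖
        ≤ ‖((l⁻¹ : (Op N)ˣ) : Op N) * c.P p.2‖ * ‖Z‖ * ‖(l : Op N) * c.P p.1‖ :=
          (norm_mul_le _ _).trans
            (mul_le_mul_of_nonneg_right (norm_mul_le _ _) (norm_nonneg _))
      _ = Real.exp (c.tau (l : Op N) p.1 - c.tau (l : Op N) p.2) * ‖Z‖ := by
          rw [c.norm_mul_P hl hi, c.norm_inv_mul_P hl hj, sub_eq_add_neg, Real.exp_add]; ring
  · have h4 := hZ p.2 p.1 hr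
    rw [h4, mul_zero, zero_mul, norm_zero, zero_mul]

theorem conj_Nm (hl : l ∈ c.L) {y : Op N} (hy : Unip c.P c.r y) :
    ‖(l : Op N) * y * ((l⁻¹ : (Op N)ˣ) : Op N) - 1‖ ≤ c.kap l * ‖y - 1‖ := by
  have h1 := c.norm_conj_le hl (hy.supp c.grading (fun i h => lt_irrefl _ (c.r_lt i i h)))
  have h2 : (l : Op N) * (1 - y) * ((l⁻¹ : (Op N)ˣ) : Op N) =
      -((l : Op N) * y * ((l⁻¹ : (Op N)ˣ) : Op N) - 1) := by
    rw [mul_sub, sub_mul, mul_one, Units.mul_inv]; abel
  rw [h2, norm_neg, norm_sub_rev 1 y] at h1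
  exact h1

theorem conj_Np (hl : l ∈ c.L) {x : Op N} (hx : Unip c.P (fun i j => c.r j i) x) :
    ‖((l⁻¹ : (Op N)ˣ) : Op N) * x * (l : Op N) - 1‖ ≤ c.kap l * ‖x - 1‖ := by
  have h1 := c.norm_conj_le' hl (Unip.supp (s := fun i j => c.r j i) c.grading
    (fun i h => lt_irrefl _ (c.r_lt i i h)) hx)
  have h2 : ((l⁻¹ : (Op N)ˣ) : Op N) * (1 - x) * (l : Op N) =
      -(((l⁻¹ : (Op N)ˣ) : Op N) * x * (l : Op N) - 1) := by
    rw [mul_sub, sub_mul, mul_one, Units.inv_mul]; abel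
  rw [h2, norm_neg, norm_sub_rev 1 x] at h1
  exact h1

theorem exists_LU (hg : g ∈ G) (hr : Reg c.P (g : Op N)) :
    ∃ y ∈ c.Nm, ∃ d ∈ c.L, ∃ x ∈ c.Np, g = y * d * x ∧ (y : Op N) = yL c.P (g : Op N) ∧
      (d : Op N) = dD c.P (g : Op N) ∧ (x : Op N) = xU c.P (g : Op N) := by
  obtain ⟨y, hy, l, hl, x, hx, hy1, hl1, hx1, he⟩ := c.fac g hg hr
  obtain ⟨-, h2, h3, h4⟩ := LU_unique c.grading c.star_P (hy1.mono c.r_lt) hl1
    (hx1.mono (fun i j h => c.r_lt j i h))
  rw [← he] at h2 h3 h4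
  refine ⟨y, ⟨hy, hy1⟩, l, ⟨hl, hl1⟩, x, ⟨hx, hx1⟩, ?_, h2.symm, h3.symm, h4.symm⟩
  exact Units.ext he

theorem LU_val {y d x : (Op N)ˣ} (hy : y ∈ c.Nm) (hd : d ∈ c.L) (hx : x ∈ c.Np) :
    Reg c.P ((y * d * x : (Op N)ˣ) : Op N) ∧ yL c.P ((y * d * x : (Op N)ˣ) : Op N) = y ∧
      dD c.P ((y * d * x : (Op N)ˣ) : Op N) = d ∧
      xU c.P ((y * d * x : (Op N)ˣ) : Op N) = x :=
  LU_unique c.grading c.star_P (hy.2.mono c.r_lt) hd.2 (hx.2.mono (fun i j h => c.r_lt j i h))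

include c in
theorem mem_of_tendsto {u : ℕ → (Op N)ˣ} (hu : ∀ n, u n ∈ G) {g : (Op N)ˣ}
    (h : Tendsto (fun n => (u n : Op N)) atTop (𝓝 (g : Op N))) : g ∈ G := by
  refine c.closed g fun F hF hG => ?_
  have h1 := ((PolyFun.continuous hF).tendsto (g : Op N)).comp h
  have h2 : (F ∘ fun n => (u n : Op N)) = fun _ => 0 := by
    funext n; exact hG _ (hu n)
  rw [h2] at h1
  exact (tendsto_nhds_unique h1 tendsto_const_nhds)

theorem star_L (hl : l ∈ c.L) : star l ∈ c.L :=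
  ⟨c.star_mem l hl.1, Diag.star c.star_P hl.2⟩

end BASIC

end Cell

end Pool.Agent.Lib.MP_d9b062_al
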