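import Pool.Agent.Lib.MP_d9b062_al_h64.Basic1

/-!
# Basic lemmas on cells, part 2: fixed vectors of `L`, the longest element, normal forms
-/

set_option linter.unusedSectionVars false
set_option linter.unusedVariables false
set_option linter.unusedSimpArgs false

namespace Pool.Agent.Lib.MP_d9b062_al

open Filter
open scoped Topology

namespace H64B

section Abstract

variable {E : Type*} [NormedAddCommGroup E] [InnerProductSpace ℝ E] [CompleteSpace E]

lemma inner_star_left (T : E →L[ℝ] E) (v w : E) : inner ℝ (star T v) w = inner ℝ v (T w) := by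
  rw [ContinuousLinearMap.star_eq_adjoint, ContinuousLinearMap.adjoint_inner_left]

lemma inner_star_right (T : E →L[ℝ] E) (v w : E) : inner ℝ v (star T w) = inner ℝ (T v) w := by
  rw [ContinuousLinearMap.star_eq_adjoint, ContinuousLinearMap.adjoint_inner_right]

lemma mul_smul_op (S T : E →L[ℝ] E) (a : ℝ) : S * (a • T) = a • (S * T) := mul_smul_comm a S T

lemma norm_star_op (T : E →L[ℝ] E) : ‖star T‖ = ‖T‖ := norm_star T

/-- a vector fixed by the adjoint whose norm is preserved is fixed -/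
lemma fixed_of_star {T : E →L[ℝ] E} {e : E} (h : star T e = e) (hn : ‖T e‖ = ‖e‖) : T e = e := by
  have h1 : ‖T e - e‖ ^ 2 = 0 := by
    rw [norm_sub_sq_real, ← inner_star_right T e e, h, real_inner_self_eq_norm_sq, hn]
    ring
  have h2 : ‖T e - e‖ = 0 := by
    rwa [sq_eq_zero_iff] at h1
  exact sub_eq_zero.mp (norm_eq_zero.mp h2)

end Abstract

section Det

variable {E : Type*} [NormedAddCommGroup E] [NormedSpace ℝ E] [FiniteDimensional ℝ E]

/-- the determinant of a polynomial family of operators -/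
theorem exists_det_poly {W : Type*} [AddCommGroup W] [Module ℝ W] {f : W → E →L[ℝ] E}
    (hf : IsPolyMap f) :
    ∃ D ∈ PolyFun W, ∀ x, (IsUnit (f x) ↔ D x ≠ 0) ∧ (f x = 1 → D x = 1) := by
  classical
  let b := Module.finBasis ℝ E
  let Φ : (E →L[ℝ] E) ≃ₐ[ℝ] Matrix (Fin (Module.finrank ℝ E)) (Fin (Module.finrank ℝ E)) ℝ :=
    (Module.End.toContinuousLinearMap E).symm.trans (LinearMap.toMatrixAlgEquiv b)
  refine ⟨fun x => (Φ (f x)).det, ?_, fun x => ⟨?_, ?_⟩⟩
  · have h1 : (fun x => (Φ (f x)).det) = fun x => ∑ σ : Equiv.Perm (Fin (Module.finrank ℝ E)),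
        ((Equiv.Perm.sign σ : ℤ) : ℝ) * ∏ i, Φ (f x) (σ i) i := by
      funext x
      rw [Matrix.det_apply']
    rw [h1]
    refine PolyFun.sum _ fun σ _ => PolyFun.mul (PolyFun.const _) (PolyFun.prod _ fun i _ => ?_)
    let φ : (E →L[ℝ] E) →ₗ[ℝ] ℝ :=
      { toFun := fun T => Φ T (σ i) i
        map_add' := fun S T => by rw [map_add]; rfl
        map_smul' := fun a T => by rw [map_smul]; rfl }
    exact hf φ
  · rw [← isUnit_iff_ne_zero, ← Matrix.isUnit_iff_isUnit_det]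
    constructor
    · intro h; exact h.map Φ
    · intro h
      have := h.map Φ.symm
      rwa [AlgEquiv.symm_apply_apply] at this
  · intro h
    show (Φ (f x)).det = 1
    rw [h, map_one, Matrix.det_one]

end Det

end H64B

open H64B

namespace Cell

variable {N : ℕ} {G : Subgroup (Op N)ˣ} {ι : Type} [Fintype ι] [LinearOrder ι] (c : Cell G ι)

section BASIC

variable {l l' g : (Op N)ˣ}

theorem sum_P_apply (v : V N) : ∑ i, c.P i v = v := by
  have h := congrArg (fun T : Op N => T v) c.grading.sum_eq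
  simp only [sum_apply] at h
  exact h

theorem P_of_mem_EL {v : V N} (hv : v ∈ c.EL) : c.P c.o v = v := by
  obtain ⟨g, hg, he⟩ := c.C_exp ((1 : ℝ) • c.μ) (c.μ_mem 1 zero_le_one)
  have hd : Diag c.P (g : Op N) := by
    rw [he]
    exact Diag.sum _ fun k _ => Diag.smul _ (c.grading.diag k)
  have h1 : (g : Op N) v = v := hv g ⟨hg, hd⟩
  have h2 : ∀ j, j ≠ c.o → c.P j v = 0 := by
    intro j hj
    have h3 : c.P j * (g : Op N) = Real.exp (((1 : ℝ) • c.μ) j) • c.P j := by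
      rw [he, Finset.mul_sum, Finset.sum_eq_single j]
      · rw [mul_smul_op, c.grading.idem]
      · intro k _ hk
        rw [mul_smul_op, c.grading.orth j k hk.symm, smul_zero]
      · intro h; exact absurd (Finset.mem_univ j) h
    have h4 : c.P j v = Real.exp (((1 : ℝ) • c.μ) j) • c.P j v := by
      have := congrArg (fun T : Op N => T v) h3
      have h5 : (c.P j * (g : Op N)) v = c.P j v := by rw [mul_apply', h1]
      exact h5.symm.trans this
    have h6 : (1 - Real.exp (((1 : ℝ) • c.μ) j)) • c.P j v = 0 := by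
      rw [sub_smul, one_smul, ← h4, sub_self]
    rcases smul_eq_zero.mp h6 with h7 | h7
    · exfalso
      have h8 : Real.exp (((1 : ℝ) • c.μ) j) = 1 := by linarith
      rw [Real.exp_eq_one_iff, one_smul, ← c.μ_o] at h8
      exact hj (c.μ_mono.injective h8)
    · exact h7
  conv_rhs => rw [← c.sum_P_apply v]
  rw [Finset.sum_eq_single c.o]
  · intro j _ hj; exact h2 j hj
  · intro h; exact absurd (Finset.mem_univ _) h

theorem PL_mem (v : V N) : c.PL v ∈ c.EL := Submodule.starProjection_apply_mem _ _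

theorem PL_of_mem {v : V N} (hv : v ∈ c.EL) : c.PL v = v :=
  Submodule.starProjection_eq_self_iff.mpr hv

theorem PL_star : star c.PL = c.PL := isSelfAdjoint_starProjection c.EL

theorem P_mul_PL : c.P c.o * c.PL = c.PL :=
  ContinuousLinearMap.ext fun v => c.P_of_mem_EL (c.PL_mem v)

theorem PL_mul_P : c.PL * c.P c.o = c.PL := by
  have h := congrArg star c.P_mul_PL
  rw [star_mul, c.PL_star, c.star_P] at h
  exact h

theorem PL_mul_P_ne {i : ι} (hi : i ≠ c.o) : c.PL * c.P i = 0 := by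
  rw [← c.PL_mul_P, mul_assoc, c.grading.orth c.o i hi.symm, mul_zero]

theorem l_mul_PL (hl : l ∈ c.L) : (l : Op N) * c.PL = c.PL :=
  ContinuousLinearMap.ext fun v => c.PL_mem v l hl

theorem PL_mul_l (hl : l ∈ c.L) : c.PL * l = c.PL := by
  have h := congrArg star (c.l_mul_PL (c.star_L hl))
  have e : star ((star l : (Op N)ˣ) : Op N) = (l : Op N) := by
    rw [Units.coe_star, star_star]
  rw [star_mul, c.PL_star, e] at h
  exact h

theorem w_mul_PL : (c.w : Op N) * c.PL = c.PL :=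
  ContinuousLinearMap.ext fun v =>
    c.w_fix (c.PL v) fun l hl hd => c.PL_mem v l ⟨hl, hd⟩

theorem star_w_mul_w_mem : star c.w * c.w ∈ c.L := by
  refine ⟨G.mul_mem (c.star_mem _ c.w_mem) c.w_mem, fun i => ?_⟩
  have h1 := c.w_P i
  have h2 : c.P i * star (c.w : Op N) = star (c.w : Op N) * c.P (c.π i) := by
    have := congrArg star h1
    rw [star_mul, star_mul, c.star_P, c.star_P] at this
    exact this
  rw [Units.val_mul, Units.coe_star, ← mul_assoc, h2, mul_assoc, ← h1, ← mul_assoc]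

theorem PL_mul_w : c.PL * c.w = c.PL := by
  have h1 := c.l_mul_PL c.star_w_mul_w_mem
  rw [Units.val_mul, Units.coe_star, mul_assoc, c.w_mul_PL] at h1
  have h := congrArg star h1
  rw [star_mul, star_star, c.PL_star] at h
  exact h

theorem PL_unip {s : ι → ι → Prop} {y : Op N} (hy : Unip c.P s y) :
    c.PL * y * c.P c.o = c.PL := by
  calc c.PL * y * c.P c.o = c.PL * (c.P c.o * y * c.P c.o) := by
        conv_lhs => rw [← c.PL_mul_P]
        noncomm_ring
    _ = c.PL := by rw [hy.1, c.PL_mul_P]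

/-- `PL` is at most `1` in norm -/
theorem norm_PL_le : ‖c.PL‖ ≤ 1 := Submodule.starProjection_norm_le _

theorem P_π_ne {i : ι} : c.P i ≠ 0 ↔ c.P (c.π i) ≠ 0 := by
  have h := c.w_P i
  rw [not_iff_not]
  constructor
  · intro h0
    rw [h0, mul_zero] at h
    have := congrArg (fun T : Op N => T * ((c.w⁻¹ : (Op N)ˣ) : Op N)) h
    simp only [zero_mul, mul_assoc, Units.mul_inv, mul_one] at this
    exact this.symm
  · intro h0
    rw [h0, zero_mul] at h
    have := congrArg (fun T : Op N => ((c.w⁻¹ : (Op N)ˣ) : Op N) * T) h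
    simp only [mul_zero, ← mul_assoc, Units.inv_mul, one_mul] at this
    exact this

/-- conjugation by `w` -/
theorem w_conj_mem (hl : l ∈ c.L) : c.w⁻¹ * l⁻¹ * c.w ∈ c.L ∧
    ∀ i, c.P i ≠ 0 → c.tau ((c.w⁻¹ * l⁻¹ * c.w : (Op N)ˣ) : Op N) i = -c.tau l (c.π i) := by
  have hli := c.L.inv_mem hl
  have hwi : ∀ i, c.P i * ((c.w⁻¹ : (Op N)ˣ) : Op N) = ((c.w⁻¹ : (Op N)ˣ) : Op N) * c.P (c.π i) := by
    intro i
    have h := c.w_P i
    calc c.P i * ((c.w⁻¹ : (Op N)ˣ) : Op N)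
        = ((c.w⁻¹ : (Op N)ˣ) : Op N) * ((c.w : Op N) * c.P i) * ((c.w⁻¹ : (Op N)ˣ) : Op N) := by
          rw [← mul_assoc, Units.inv_mul, one_mul]
      _ = ((c.w⁻¹ : (Op N)ˣ) : Op N) * c.P (c.π i) := by
          rw [h, mul_assoc, mul_assoc, Units.mul_inv, mul_one]
  have hk : c.w⁻¹ * l⁻¹ * c.w ∈ c.L := by
    refine ⟨G.mul_mem (G.mul_mem (G.inv_mem c.w_mem) (G.inv_mem hl.1)) c.w_mem, fun i => ?_⟩
    rw [Units.val_mul, Units.val_mul]
    calc c.P i * (((c.w⁻¹ : (Op N)ˣ) : Op N) * ((l⁻¹ : (Op N)ˣ) : Op N) * (c.w : Op N))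
        = (c.P i * ((c.w⁻¹ : (Op N)ˣ) : Op N)) * ((l⁻¹ : (Op N)ˣ) : Op N) * (c.w : Op N) := by
          noncomm_ring
      _ = ((c.w⁻¹ : (Op N)ˣ) : Op N) * (c.P (c.π i) * ((l⁻¹ : (Op N)ˣ) : Op N)) * (c.w : Op N) := by
          rw [hwi]; noncomm_ring
      _ = ((c.w⁻¹ : (Op N)ˣ) : Op N) * ((l⁻¹ : (Op N)ˣ) : Op N) * (c.P (c.π i) * (c.w : Op N)) := by
          rw [hli.2]; noncomm_ring
      _ = _ := by rw [← c.w_P i]; noncomm_ring
  refine ⟨hk, fun i hi => ?_⟩
  set k := c.w⁻¹ * l⁻¹ * c.w with hkdef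
  have hpow : ∀ n : ℕ, c.w * k ^ n = (l⁻¹) ^ n * c.w := by
    intro n
    induction n with
    | zero => rw [pow_zero, pow_zero, mul_one, one_mul]
    | succ n ih =>
      rw [pow_succ, ← mul_assoc, ih, pow_succ, hkdef]
      group
  have hpow' : ∀ n : ℕ, (c.w : Op N) * (k : Op N) ^ n =
      ((l⁻¹ : (Op N)ˣ) : Op N) ^ n * (c.w : Op N) := by
    intro n
    have := congrArg Units.val (hpow n)
    rw [Units.val_mul, Units.val_mul, Units.val_pow_eq_pow_val, Units.val_pow_eq_pow_val] at this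
    exact this
  have hπ : c.P (c.π i) ≠ 0 := (c.P_π_ne).mp hi
  have hn1 : ∀ n : ℕ, ‖(k : Op N) ^ n * c.P i‖ = Real.exp (n * c.tau (k : Op N) i) := by
    intro n
    have := c.norm_mul_P (c.L.pow_mem hk n) hi
    rw [Units.val_pow_eq_pow_val, c.tau_pow hk] at this
    exact this
  have hn2 : ∀ n : ℕ, ‖((l⁻¹ : (Op N)ˣ) : Op N) ^ n * c.P (c.π i)‖ =
      Real.exp (n * -c.tau (l : Op N) (c.π i)) := by
    intro n
    have := c.norm_mul_P (c.L.pow_mem hli n) hπ
    rw [Units.val_pow_eq_pow_val, c.tau_pow hli, c.tau_inv hl] at this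
    exact this
  have hw0 : ‖(c.w : Op N)‖ * ‖((c.w⁻¹ : (Op N)ˣ) : Op N)‖ + 1 > 0 := by positivity
  have key : ∀ n : ℕ, (c.w : Op N) * ((k : Op N) ^ n * c.P i) =
      (((l⁻¹ : (Op N)ˣ) : Op N) ^ n * c.P (c.π i)) * (c.w : Op N) := by
    intro n
    rw [← mul_assoc, hpow', mul_assoc, c.w_P, ← mul_assoc]
  have key1 : ∀ n : ℕ, (k : Op N) ^ n * c.P i = ((c.w⁻¹ : (Op N)ˣ) : Op N) *
      ((((l⁻¹ : (Op N)ˣ) : Op N) ^ n * c.P (c.π i)) * (c.w : Op N)) := by
    intro n
    rw [← key, ← mul_assoc ((c.w⁻¹ : (Op N)ˣ) : Op N), Units.inv_mul, one_mul]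
  have key2 : ∀ n : ℕ, ((l⁻¹ : (Op N)ˣ) : Op N) ^ n * c.P (c.π i) =
      ((c.w : Op N) * ((k : Op N) ^ n * c.P i)) * ((c.w⁻¹ : (Op N)ˣ) : Op N) := by
    intro n
    rw [key, mul_assoc _ (c.w : Op N), Units.mul_inv, mul_one]
  apply le_antisymm
  · refine mul_le_of_exp hw0 fun n => ?_
    rw [← hn1, ← hn2]
    conv_lhs => rw [key1]
    calc ‖((c.w⁻¹ : (Op N)ˣ) : Op N) *
          ((((l⁻¹ : (Op N)ˣ) : Op N) ^ n * c.P (c.π i)) * (c.w : Op N))‖
        ≤ ‖((c.w⁻¹ : (Op N)ˣ) : Op N)‖ *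
          (‖((l⁻¹ : (Op N)ˣ) : Op N) ^ n * c.P (c.π i)‖ * ‖(c.w : Op N)‖) :=
          (norm_mul_le _ _).trans (mul_le_mul_of_nonneg_left (norm_mul_le _ _) (norm_nonneg _))
      _ = (‖(c.w : Op N)‖ * ‖((c.w⁻¹ : (Op N)ˣ) : Op N)‖) *
          ‖((l⁻¹ : (Op N)ˣ) : Op N) ^ n * c.P (c.π i)‖ := by ring
      _ ≤ _ := mul_le_mul_of_nonneg_right (by linarith) (norm_nonneg _)
  · refine mul_le_of_exp hw0 fun n => ?_
    rw [← hn1, ← hn2]
    conv_lhs => rw [key2]
    calc ‖((c.w : Op N) * ((k : Op N) ^ n * c.P i)) * ((c.w⁻¹ : (Op N)ˣ) : Op N)‖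
        ≤ ‖(c.w : Op N)‖ * ‖(k : Op N) ^ n * c.P i‖ * ‖((c.w⁻¹ : (Op N)ˣ) : Op N)‖ :=
          (norm_mul_le _ _).trans (mul_le_mul_of_nonneg_right (norm_mul_le _ _) (norm_nonneg _))
      _ = (‖(c.w : Op N)‖ * ‖((c.w⁻¹ : (Op N)ˣ) : Op N)‖) * ‖(k : Op N) ^ n * c.P i‖ := by ring
      _ ≤ _ := mul_le_mul_of_nonneg_right (by linarith) (norm_nonneg _)

/-- the polynomial `D` whose nonvanishing is regularity -/
theorem exists_reg_poly : ∃ D ∈ PolyFun (Op N), D 1 ≠ 0 ∧ ∀ T : Op N, Reg c.P T ↔ D T ≠ 0 := by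
  classical
  have h : ∀ i, ∃ D ∈ PolyFun (Op N), ∀ T : Op N,
      (IsUnit (Mi c.P i T) ↔ D T ≠ 0) ∧ (Mi c.P i T = 1 → D T = 1) := by
    intro i
    refine exists_det_poly (E := V N) (f := fun T : Op N => Mi c.P i T) ?_
    exact (((IsPolyMap.const (Qge c.P i)).mul IsPolyMap.id).mul
      (IsPolyMap.const (Qge c.P i))).add (IsPolyMap.const (Qlt c.P i))
  choose D hD h1 using h
  refine ⟨fun T => ∏ i, D i T, PolyFun.prod _ fun i _ => hD i, ?_, fun T => ?_⟩
  · have : ∀ i, D i 1 = 1 := by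
      intro i
      apply (h1 i 1).2
      rw [Mi, mul_one, c.grading.Qge_idem, c.grading.Q_add]
    simp only [this, Finset.prod_const_one]
    exact one_ne_zero
  · rw [Finset.prod_ne_zero_iff]
    exact ⟨fun h i _ => (h1 i T).1.mp (h i), fun h i => (h1 i T).1.mpr (h i (Finset.mem_univ i))⟩

theorem T_eq {γ F : Aff (V N)} {l : (Op N)ˣ} {t : V N} (h : c.ALox γ F l t) :
    c.T F.lin γ = c.PL t := by
  have h1 : ((F.lin⁻¹ : (Op N)ˣ) : Op N) γ.tr =
      ((F.lin⁻¹ : (Op N)ˣ) : Op N) F.tr + t -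
        (l : Op N) (((F.lin⁻¹ : (Op N)ˣ) : Op N) F.tr) := by
    have hf : ∀ v, ((F.lin⁻¹ : (Op N)ˣ) : Op N) ((F.lin : Op N) v) = v := by
      intro v; rw [← mul_apply', Units.inv_mul]; rfl
    rw [h.eq, Aff.mul_tr, Aff.mul_tr, Aff.mul_lin, Aff.inv_tr, map_add, map_add, hf, map_neg,
      map_neg, Units.val_mul, mul_apply', hf, sub_eq_add_neg]
  rw [T, h1, map_sub, map_add, ← mul_apply' c.PL (l : Op N), c.PL_mul_l h.l_mem]
  abel

/-- the conformal factors of the transpose -/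
theorem tau_star (hl : l ∈ c.L) : c.tau ((star l : (Op N)ˣ) : Op N) = c.tau l := by
  funext i
  by_cases hi : c.P i = 0
  · rw [c.tau_of_P_eq hi, c.tau_of_P_eq hi]
  · have h1 := c.norm_mul_P (c.star_L hl) hi
    have h2 := c.norm_mul_P hl hi
    have h3 : ((star l : (Op N)ˣ) : Op N) * c.P i = star ((l : Op N) * c.P i) := by
      rw [star_mul, c.star_P, ← (c.star_L hl).2 i]; rfl
    rw [h3, norm_star_op, h2, Real.exp_eq_exp] at h1
    exact h1.symm

/-- decomposition used in the normal form -/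
theorem exists_decomp (hl : l ∈ c.L) (hv : c.VReg (l : Op N)) (v : V N) :
    ∃ u t : V N, c.P c.o t = t ∧ (l : Op N) t = t ∧ v = u - (l : Op N) u + t := by
  let W₁ : Submodule ℝ (V N) := LinearMap.range ((1 - (l : Op N) : Op N) : V N →ₗ[ℝ] V N)
  let W₂ : Submodule ℝ (V N) :=
    { carrier := {t | c.P c.o t = t ∧ (l : Op N) t = t}
      add_mem' := fun {a b} ha hb => ⟨by rw [map_add, ha.1, hb.1], by rw [map_add, ha.2, hb.2]⟩
      zero_mem' := ⟨map_zero _, map_zero _⟩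
      smul_mem' := fun a b hb => ⟨by rw [map_smul, hb.1], by rw [map_smul, hb.2]⟩ }
  have key : W₁ ⊔ W₂ = ⊤ := by
    rw [← Submodule.orthogonal_eq_bot_iff, eq_bot_iff]
    intro e he
    rw [Submodule.mem_bot]
    have h1 : star (l : Op N) e = e := by
      have : ∀ u, inner ℝ (star (l : Op N) e - e) u = 0 := by
        intro u
        have h2 : u - (l : Op N) u ∈ W₁ ⊔ W₂ :=
          Submodule.mem_sup_left ⟨u, rfl⟩
        have h3 := Submodule.inner_left_of_mem_orthogonal h2 he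
        rw [inner_sub_left, inner_star_left]
        rw [inner_sub_right] at h3
        linarith
      exact sub_eq_zero.mp (inner_self_eq_zero.mp (this _))
    have hst := c.star_L hl
    have h4 : ∀ i, i ≠ c.o → c.P i e = 0 := by
      intro i hi
      have h5 : star (l : Op N) (c.P i e) = c.P i e := by
        have h6 := hst.2 i
        rw [Units.coe_star] at h6
        rw [← mul_apply', ← h6, mul_apply', h1]
      have h7 := c.tau_spec hst i e
      rw [Units.coe_star, h5, ← Units.coe_star, c.tau_star hl] at h7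
      by_contra hne
      have h8 : Real.exp (c.tau (l : Op N) i) = 1 := by
        have h9 := norm_pos_iff.mpr hne
        have : (Real.exp (c.tau (l : Op N) i) - 1) * ‖c.P i e‖ = 0 := by linarith
        rcases mul_eq_zero.mp this with h | h
        · linarith
        · exact absurd h h9.ne'
      rw [Real.exp_eq_one_iff] at h8
      exact hv i hi h8
    have h10 : c.P c.o e = e := by
      conv_rhs => rw [← c.sum_P_apply e]
      rw [Finset.sum_eq_single c.o]
      · intro j _ hj; exact h4 j hj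
      · intro h; exact absurd (Finset.mem_univ _) h
    have h11 : (l : Op N) e = e := fixed_of_star h1 (c.norm_o hl h10)
    have h12 : e ∈ W₁ ⊔ W₂ := Submodule.mem_sup_right ⟨h10, h11⟩
    exact inner_self_eq_zero.mp (Submodule.inner_left_of_mem_orthogonal h12 he)
  have h1 : v ∈ W₁ ⊔ W₂ := by rw [key]; exact Submodule.mem_top
  obtain ⟨a, ⟨u, hu⟩, t, ht, hat⟩ := Submodule.mem_sup.mp h1
  refine ⟨u, t, ht.1, ht.2, ?_⟩
  rw [← hat, ← hu]
  rfl

/-- normal form of a `V`-regular loxodromic affine map -/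
theorem exists_alox {γ : Aff (V N)} {f l : (Op N)ˣ} (h : c.LinLox γ.lin f l)
    (hv : c.VReg (l : Op N)) : ∃ (F : Aff (V N)) (t : V N), F.lin = f ∧ c.ALox γ F l t := by
  obtain ⟨u, t, h1, h2, h3⟩ := c.exists_decomp h.l_mem hv (((f⁻¹ : (Op N)ˣ) : Op N) γ.tr)
  refine ⟨⟨f, (f : Op N) u⟩, t, rfl, ⟨h.f_mem, h.l_mem, h.dom, hv, h1, h2, ?_⟩⟩
  have hf : ∀ v, ((f⁻¹ : (Op N)ˣ) : Op N) ((f : Op N) v) = v := by
    intro v; rw [← mul_apply', Units.inv_mul]; rfl
  have hf' : ∀ v, (f : Op N) (((f⁻¹ : (Op N)ˣ) : Op N) v) = v := by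
    intro v; rw [← mul_apply', Units.mul_inv]; rfl
  refine Aff.ext h.eq ?_
  rw [Aff.mul_tr, Aff.mul_tr, Aff.mul_lin, Aff.inv_tr]
  show γ.tr = (f : Op N) u + (f : Op N) t +
    ((f * l : (Op N)ˣ) : Op N) (-(((f⁻¹ : (Op N)ˣ) : Op N) ((f : Op N) u)))
  rw [hf, map_neg, Units.val_mul, mul_apply', ← map_add, ← sub_eq_add_neg, ← map_sub]
  rw [← hf' γ.tr, h3]
  congr 1
  abel

end BASIC

end Cell

end Pool.Agent.Lib.MP_d9b062_al
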