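import Pool.Agent.Lib.MP_d9b062_al_h64.Polar

/-!
# Analyticity, irreducibility, logarithm
-/

namespace Pool.Agent.Lib.MP_d9b062_al.H64

open NormedSpace Filter
open scoped Topology InnerProductSpace

set_option linter.unusedSectionVars false

variable {E : Type*} [NormedAddCommGroup E] [InnerProductSpace ℝ E] [CompleteSpace E]
  [FiniteDimensional ℝ E]

lemma analyticAt_exp_smul (Z : E →L[ℝ] E) {f : ℝ → ℝ} {s : ℝ} (hf : AnalyticAt ℝ f s) :
    AnalyticAt ℝ (fun t : ℝ => (exp (f t • Z) : E →L[ℝ] E)) s := by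
  have h3 : ∀ x : (E →L[ℝ] E), AnalyticAt ℝ (exp : (E →L[ℝ] E) → (E →L[ℝ] E)) x :=
    fun x => exp_analytic x
  have h5 : AnalyticAt ℝ (fun t : ℝ => f t • Z) s := hf.smul analyticAt_const
  exact (h3 _).comp h5

lemma analyticAt_polyFun {F : (E →L[ℝ] E) → ℝ} (hF : F ∈ PolyFun (E →L[ℝ] E))
    {c : ℝ → (E →L[ℝ] E)} {s : ℝ} (hc : AnalyticAt ℝ c s) :
    AnalyticAt ℝ (fun t => F (c t)) s := by
  have h1 : ContDiff ℝ ⊤ F := PolyFun.contDiff hF
  have h2 : AnalyticAt ℝ F (c s) := (h1.contDiffAt (x := c s)).analyticAt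
  exact h2.comp hc

theorem exp_eq_zeroA {I : Set ((E →L[ℝ] E) → ℝ)} {S : Set (E →L[ℝ] E)} {Z : E →L[ℝ] E}
    (hI : ∀ F ∈ I, F ∈ PolyFun (E →L[ℝ] E)) (hder : ∀ F ∈ I, RD Z F ∈ I)
    (h0 : ∀ F ∈ I, ∀ s ∈ S, F s = 0) :
    ∀ F ∈ I, ∀ s ∈ S, ∀ t : ℝ, F (s * exp (t • Z)) = 0 := by
  intro F hF T hT t
  have hm : ∀ k, ((RD Z)^[k]) F ∈ I := by
    intro k
    induction k with
    | zero => exact hF
    | succ k ih =>
      rw [Function.iterate_succ_apply']
      exact hder _ ih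
  have ha : AnalyticOnNhd ℝ (fun t : ℝ => F (T * exp (t • Z))) Set.univ := by
    intro s _
    exact analyticAt_polyFun (hI F hF)
      (analyticAt_const.mul (analyticAt_exp_smul Z analyticAt_id))
  have := eq_zero_of_derivs (f := fun k t => ((RD Z)^[k]) F (T * exp (t • Z)))
    (fun k s => by
      have := hasDerivAt_RD Z (hI _ (hm k)) T s
      simp only [Function.iterate_succ_apply']
      exact this) ha
    (fun k => by
      simp only [zero_smul, exp_zero, mul_one]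
      exact h0 _ (hm k) T hT) t
  simpa using this

lemma analyticAt_list_prod (l : List (E →L[ℝ] E)) {f : ℝ → ℝ} {s : ℝ} (hf : AnalyticAt ℝ f s) :
    AnalyticAt ℝ (fun t : ℝ => (l.map fun Z => (exp (f t • Z) : E →L[ℝ] E)).prod) s := by
  induction l with
  | nil => simpa using analyticAt_const
  | cons Z l ih =>
    simp only [List.map_cons, List.prod_cons]
    exact (analyticAt_exp_smul Z hf).mul ih

variable {G : Subgroup (E →L[ℝ] E)ˣ}

lemma list_prod_mem {l : List (E →L[ℝ] E)} (hl : ∀ Z ∈ l, Z ∈ lieA G) (c : ℝ) :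
    ∃ g ∈ G, (g : E →L[ℝ] E) = (l.map fun Z => (exp (c • Z) : E →L[ℝ] E)).prod := by
  induction l with
  | nil => exact ⟨1, G.one_mem, by simp⟩
  | cons Z l ih =>
    obtain ⟨g, hg, h1⟩ := ih fun Z' h' => hl Z' (List.mem_cons_of_mem _ h')
    refine ⟨uexp (c • Z) * g, G.mul_mem (mem_lieA.1 (hl Z List.mem_cons_self) c) hg, ?_⟩
    simp only [Units.val_mul, uexp_val, List.map_cons, List.prod_cons, h1]

theorem zariski_irreducibleA (hG : SG G) {F F' : (E →L[ℝ] E) → ℝ}
    (hF : F ∈ PolyFun (E →L[ℝ] E)) (hF' : F' ∈ PolyFun (E →L[ℝ] E))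
    (h : ∀ g ∈ G, F (g : E →L[ℝ] E) * F' (g : E →L[ℝ] E) = 0) :
    (∀ g ∈ G, F (g : E →L[ℝ] E) = 0) ∨ ∀ g ∈ G, F' (g : E →L[ℝ] E) = 0 := by
  by_contra hcon
  push Not at hcon
  obtain ⟨⟨g, hg, h1⟩, ⟨g', hg', h2⟩⟩ := hcon
  have e1 : ∃ l : List (E →L[ℝ] E), (∀ Z ∈ l, Z ∈ lieA G) ∧ F (l.map exp).prod ≠ 0 := by
    by_contra hc
    push Not at hc
    exact h1 (hG.connected F hF hc g hg)
  have e2 : ∃ l : List (E →L[ℝ] E), (∀ Z ∈ l, Z ∈ lieA G) ∧ F' (l.map exp).prod ≠ 0 := by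
    by_contra hc
    push Not at hc
    exact h2 (hG.connected F' hF' hc g' hg')
  obtain ⟨l, hl, h3⟩ := e1
  obtain ⟨l', hl', h4⟩ := e2
  let q : ℝ → (E →L[ℝ] E) := fun s =>
    (l.map fun Z => (exp ((1 - s) • Z) : E →L[ℝ] E)).prod *
      (l'.map fun Z => (exp (s • Z) : E →L[ℝ] E)).prod
  have hq : ∀ s, AnalyticAt ℝ q s := fun s =>
    (analyticAt_list_prod l (analyticAt_const.sub analyticAt_id)).mul
      (analyticAt_list_prod l' analyticAt_id)
  have hqG : ∀ s, F (q s) * F' (q s) = 0 := by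
    intro s
    obtain ⟨a, ha, ha'⟩ := list_prod_mem hl (1 - s)
    obtain ⟨b, hb, hb'⟩ := list_prod_mem hl' s
    have := h (a * b) (G.mul_mem ha hb)
    rw [Units.val_mul, ha', hb'] at this
    exact this
  have key := AnalyticOnNhd.eq_zero_or_eq_zero_of_mul_eq_zero (U := Set.univ)
    (f := fun s => F (q s)) (g := fun s => F' (q s))
    (fun s _ => analyticAt_polyFun hF (hq s)) (fun s _ => analyticAt_polyFun hF' (hq s))
    (fun s _ => hqG s) isPreconnected_univ
  rcases key with key | key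
  · apply h3
    have := key 0 (Set.mem_univ _)
    simpa [q] using this
  · apply h4
    have := key 1 (Set.mem_univ _)
    simpa [q] using this

/-! ### commutation with functions of a diagonal operator -/

section diag

variable {κ : Type*} [Fintype κ] (b : OrthonormalBasis κ ℝ E)

lemma dg_commute {f g : κ → ℝ} (hfg : ∀ i j, f i = f j → g i = g j) {T : E →L[ℝ] E}
    (h : T * dg b f = dg b f * T) : T * dg b g = dg b g * T := by
  classical
  have h1 : ∀ i j, f j * ⟪b i, T (b j)⟫_ℝ = f i * ⟪b i, T (b j)⟫_ℝ := by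
    intro i j
    have e := congrArg (fun S : E →L[ℝ] E => ⟪b i, S (b j)⟫_ℝ) h
    simp only [opmul_apply] at e
    rw [dg_basis, map_smul, inner_smul_right, dg_apply] at e
    rw [e, inner_sum]
    simp only [inner_smul_right, OrthonormalBasis.inner_eq_ite]
    simp
  apply dg_ext b
  intro j
  rw [opmul_apply, opmul_apply, dg_basis, map_smul, dg_apply]
  conv_lhs => rw [← b.sum_repr' (T (b j)), Finset.smul_sum]
  refine Finset.sum_congr rfl fun i _ => ?_
  rw [smul_smul]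
  congr 1
  by_cases h2 : ⟪b i, T (b j)⟫_ℝ = 0
  · rw [h2]; simp
  · rw [hfg i j (mul_right_cancel₀ h2 (h1 i j)).symm]

end diag

/-- logarithm of positive elements of `G`, with commutation -/
theorem exists_logA (hG : SG G) {P : (E →L[ℝ] E)ˣ} (hP : P ∈ G)
    (hsym : star (P : E →L[ℝ] E) = P) (hpos : ∀ v : E, v ≠ 0 → 0 < ⟪(P : E →L[ℝ] E) v, v⟫_ℝ) :
    ∃ S ∈ lieA G, star S = S ∧ uexp S = P ∧
      ∀ T : E →L[ℝ] E, T * P = P * T → T * S = S * T := by
  have hs : LinearMap.IsSymmetric ((P : E →L[ℝ] E) : E →ₗ[ℝ] E) := by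
    rw [← ContinuousLinearMap.isSelfAdjoint_iff_isSymmetric]
    exact hsym
  obtain ⟨n, hn⟩ : ∃ n, Module.finrank ℝ E = n := ⟨_, rfl⟩
  set b := hs.eigenvectorBasis hn with hb
  set lam := hs.eigenvalues hn with hlam
  have hPb : ∀ i, (P : E →L[ℝ] E) (b i) = lam i • b i := fun i =>
    hs.apply_eigenvectorBasis hn i
  have hlpos : ∀ i, 0 < lam i := by
    intro i
    have h1 := hpos (b i) (b.orthonormal.ne_zero i)
    rw [hPb, inner_smul_left, real_inner_self_eq_norm_sq, b.orthonormal.1 i] at h1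
    simpa using h1
  have hPd : (P : E →L[ℝ] E) = dg b lam := by
    apply dg_ext b
    intro j
    rw [hPb, dg_basis]
  set S : E →L[ℝ] E := dg b (fun i => Real.log (lam i)) with hS
  have hexp : ∀ t : ℝ, exp (t • S) = dg b (fun i => Real.exp (Real.log (lam i) * t)) := by
    intro t
    rw [hS, ← dg_smul, dg_exp]
    congr 1
    ext i
    simp [mul_comm]
  have hu : uexp S = P := by
    ext1
    rw [uexp_val]
    have := hexp 1
    rw [one_smul] at this
    rw [this, hPd]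
    congr 1
    ext i
    rw [mul_one, Real.exp_log (hlpos i)]
  refine ⟨S, ?_, dg_star b _, hu, ?_⟩
  · rw [mem_lieA]
    intro t
    apply hG.closed
    intro F hF hv
    rw [uexp_val, hexp]
    refine ES.eq_zero (polyFun_dg_mem_ES b hF fun i => Real.log (lam i)) (fun n => ?_) t
    rw [← hexp, ← uexp_val, uexp_nsmul, hu]
    exact hv _ (G.pow_mem hP n)
  · intro T hT
    rw [hPd] at hT
    exact dg_commute b (fun i j hij => by rw [hij]) hT

lemma star_mul_self_pos (g : (E →L[ℝ] E)ˣ) (v : E) (hv : v ≠ 0) :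
    0 < ⟪(star (g : E →L[ℝ] E) * g) v, v⟫_ℝ := by
  rw [opmul_apply, ContinuousLinearMap.star_eq_adjoint,
    ContinuousLinearMap.adjoint_inner_left, real_inner_self_eq_norm_sq]
  have : (g : E →L[ℝ] E) v ≠ 0 := by
    intro h0
    apply hv
    have h1 : ((g⁻¹ : (E →L[ℝ] E)ˣ) : E →L[ℝ] E) ((g : E →L[ℝ] E) v) = v := by
      rw [← opmul_apply, ← Units.val_mul, inv_mul_cancel]
      rfl
    rw [h0, map_zero] at h1
    exact h1.symm
  have := norm_pos_iff.2 this
  positivity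

/-- logarithm of `g* g` -/
theorem exists_log2A (hG : SG G) {g : (E →L[ℝ] E)ˣ} (hg : g ∈ G) :
    ∃ Y ∈ lieA G, star Y = Y ∧ star (g : E →L[ℝ] E) * g = exp ((2 : ℝ) • Y) ∧
      ∀ T : E →L[ℝ] E, T * (star (g : E →L[ℝ] E) * g) = (star (g : E →L[ℝ] E) * g) * T →
        T * Y = Y * T := by
  obtain ⟨S, hS, hSs, hSe, hSc⟩ := exists_logA hG (G.mul_mem (hG.star_mem g hg) hg) (by simp)
    (fun v hv => by
      simpa only [Units.val_mul, Units.coe_star] using star_mul_self_pos g v hv)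
  refine ⟨(1 / 2 : ℝ) • S, (lieSub hG).smul_mem _ hS, ?_, ?_, ?_⟩
  · rw [star_smul, hSs]; simp
  · rw [smul_smul]
    have := congrArg (fun u : (E →L[ℝ] E)ˣ => (u : E →L[ℝ] E)) hSe
    simp only [uexp_val, Units.val_mul, Units.coe_star] at this
    rw [← this]
    norm_num
  · intro T hT
    have := hSc T (by simpa only [Units.val_mul, Units.coe_star] using hT)
    rw [mul_smul_comm, smul_mul_assoc, this]

end Pool.Agent.Lib.MP_d9b062_al.H64
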