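import Pool.Agent.Lib.MP_d9b062_al_h64.Polar

/-!
# Maximum principle and Cartan decomposition `K A K`
-/

namespace Pool.Agent.Lib.MP_d9b062_al.H64

open NormedSpace Filter
open scoped Topology InnerProductSpace

set_option linter.unusedSectionVars false

section Abstract

variable {E : Type*} [NormedAddCommGroup E] [InnerProductSpace ℝ E] [CompleteSpace E]
  [FiniteDimensional ℝ E]

/-! ### trace -/

/-- trace as a continuous linear functional -/
noncomputable def trc : (E →L[ℝ] E) →L[ℝ] ℝ :=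
  LinearMap.toContinuousLinearMap ((LinearMap.trace ℝ E) ∘ₗ (ContinuousLinearMap.coeLM ℝ))

lemma trc_apply (T : E →L[ℝ] E) : trc T = LinearMap.trace ℝ E (T : E →ₗ[ℝ] E) := rfl

lemma trc_mul_comm (S T : E →L[ℝ] E) : trc (S * T) = trc (T * S) := by
  rw [trc_apply, trc_apply]
  exact LinearMap.trace_mul_comm ℝ (S : E →ₗ[ℝ] E) (T : E →ₗ[ℝ] E)

lemma trc_star_mul_self (T : E →L[ℝ] E) :
    trc (star T * T) = ∑ i, ‖T (stdOrthonormalBasis ℝ E i)‖ ^ 2 := by
  rw [trc_apply, LinearMap.trace_eq_sum_inner _ (stdOrthonormalBasis ℝ E)]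
  refine Finset.sum_congr rfl fun i _ => ?_
  show ⟪_, (star T * T) _⟫_ℝ = _
  rw [opmul_apply, ContinuousLinearMap.star_eq_adjoint, ContinuousLinearMap.adjoint_inner_right,
    real_inner_self_eq_norm_sq]

lemma trc_star_mul_self_nonneg (T : E →L[ℝ] E) : 0 ≤ trc (star T * T) := by
  rw [trc_star_mul_self]
  exact Finset.sum_nonneg fun i _ => sq_nonneg _

lemma eq_zero_of_trc {T : E →L[ℝ] E} (h : trc (star T * T) = 0) : T = 0 := by
  rw [trc_star_mul_self] at h
  apply dg_ext (stdOrthonormalBasis ℝ E)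
  intro j
  have := (Finset.sum_eq_zero_iff_of_nonneg (fun i _ => sq_nonneg _)).1 h j (Finset.mem_univ j)
  have h2 : ‖T (stdOrthonormalBasis ℝ E j)‖ = 0 := by simpa using this
  rw [norm_eq_zero.1 h2]
  rfl

lemma trc_star_mul_self_pos {T : E →L[ℝ] E} (h : T ≠ 0) : 0 < trc (star T * T) :=
  lt_of_le_of_ne (trc_star_mul_self_nonneg T) fun h0 => h (eq_zero_of_trc h0.symm)

/-! ### Cartan subspaces -/

/-- Cartan subspace -/
structure CartanA (G : Subgroup (E →L[ℝ] E)ˣ) (A : Submodule ℝ (E →L[ℝ] E)) : Prop where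
  mem : ∀ X ∈ A, X ∈ lieA G
  symm : ∀ X ∈ A, star X = X
  comm : ∀ X ∈ A, ∀ Y ∈ A, X * Y = Y * X
  maxi : ∀ Y ∈ lieA G, star Y = Y → (∀ X ∈ A, X * Y = Y * X) → Y ∈ A

variable {G : Subgroup (E →L[ℝ] E)ˣ} {A : Submodule ℝ (E →L[ℝ] E)}

/-- the maximal compact subgroup, as a set of operators -/
def KK (G : Subgroup (E →L[ℝ] E)ˣ) : Set (E →L[ℝ] E) :=
  {k | star k * k = 1 ∧ ∃ g ∈ G, (g : E →L[ℝ] E) = k}

lemma norm_of_star_mul_self {k : E →L[ℝ] E} (h : star k * k = 1) (v : E) : ‖k v‖ = ‖v‖ := by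
  have h1 : ⟪k v, k v⟫_ℝ = ⟪v, v⟫_ℝ := by
    rw [← ContinuousLinearMap.adjoint_inner_right, ← ContinuousLinearMap.star_eq_adjoint,
      ← opmul_apply, h]
    rfl
  rw [real_inner_self_eq_norm_sq, real_inner_self_eq_norm_sq] at h1
  exact (pow_left_inj₀ (norm_nonneg _) (norm_nonneg _) two_ne_zero).1 h1

/-- a left inverse in finite dimension -/
lemma mul_star_of_star_mul {k : E →L[ℝ] E} (h : star k * k = 1) : k * star k = 1 := by
  have h1 : ((star k : E →L[ℝ] E) : E →ₗ[ℝ] E) * (k : E →ₗ[ℝ] E) = 1 := by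
    ext v
    exact congrArg (fun T : E →L[ℝ] E => T v) h
  have h2 := mul_eq_one_comm.1 h1
  ext v
  exact LinearMap.congr_fun h2 v

/-- the unit attached to an orthogonal operator -/
noncomputable def uorth (k : E →L[ℝ] E) (h : star k * k = 1) : (E →L[ℝ] E)ˣ :=
  ⟨k, star k, mul_star_of_star_mul h, h⟩

lemma isCompact_KK (hG : SG G) : IsCompact (KK G) := by
  apply Metric.isCompact_of_isClosed_isBounded
  · have e : KK G = {k : E →L[ℝ] E | star k * k = 1} ∩
        ⋂ (F : (E →L[ℝ] E) → ℝ) (_ : F ∈ PolyFun (E →L[ℝ] E))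
          (_ : ∀ g ∈ G, F (g : E →L[ℝ] E) = 0), {k | F k = 0} := by
      ext k
      simp only [KK, Set.mem_inter_iff, Set.mem_iInter]
      constructor
      · rintro ⟨h1, g, hg, rfl⟩
        exact ⟨h1, fun F hF hv => hv g hg⟩
      · rintro ⟨h1, h2⟩
        refine ⟨h1, uorth k h1, hG.closed _ fun F hF hv => h2 F hF hv, rfl⟩
    rw [e]
    refine IsClosed.inter (isClosed_eq ?_ continuous_const) ?_
    · exact (continuous_star.mul continuous_id)
    · refine isClosed_iInter fun F => isClosed_iInter fun hF => isClosed_iInter fun _ => ?_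
      exact isClosed_eq (PolyFun.continuous hF) continuous_const
  · refine (Metric.isBounded_closedBall (x := (0 : E →L[ℝ] E)) (r := 1)).subset ?_
    rintro k ⟨hk, -⟩
    rw [mem_closedBall_zero_iff]
    refine ContinuousLinearMap.opNorm_le_bound _ zero_le_one fun v => ?_
    rw [norm_of_star_mul_self hk, one_mul]

/-- second order condition at a maximum -/
lemma max_second {f f' : ℝ → ℝ} {f'' : ℝ} (h1 : ∀ t, HasDerivAt f (f' t) t)
    (h2 : HasDerivAt f' f'' 0) (hmax : IsLocalMax f 0) : f'' ≤ 0 := by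
  by_contra hcon
  push Not at hcon
  have e1 : deriv f = f' := by ext t; exact (h1 t).deriv
  have e2 : deriv (deriv f) 0 = f'' := by rw [e1]; exact h2.deriv
  have e3 : deriv f 0 = 0 := hmax.deriv_eq_zero
  have hmin : IsLocalMin f 0 :=
    isLocalMin_of_deriv_deriv_pos (by rw [e2]; exact hcon) e3 (h1 0).continuousAt
  have hc : ∀ᶠ t in 𝓝 (0 : ℝ), f t = f 0 := by
    filter_upwards [hmax, hmin] with t ht ht'
    exact le_antisymm ht ht'
  have hd : deriv f =ᶠ[𝓝 0] fun _ => (0 : ℝ) := by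
    have hc' : f =ᶠ[𝓝 0] fun _ => f 0 := hc
    have := hc'.deriv
    simpa using this
  have : deriv (deriv f) 0 = 0 := by rw [hd.deriv_eq]; simp
  rw [e2] at this
  linarith

/-- conjugation by a one-parameter group -/
lemma hasDerivAt_conj (W Y : E →L[ℝ] E) (t : ℝ) :
    HasDerivAt (fun t : ℝ => exp (t • W) * Y * exp (t • (-W)))
      (W * (exp (t • W) * Y * exp (t • (-W))) - (exp (t • W) * Y * exp (t • (-W))) * W) t := by
  have h1 : HasDerivAt (fun t : ℝ => exp (t • W) * Y * exp (t • (-W)))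
      ((W * exp (t • W)) * Y * exp (t • (-W))
        + exp (t • W) * Y * (exp (t • (-W)) * (-W))) t :=
    ((hasDerivAt_exp_smul_const' W t).mul_const Y).mul (hasDerivAt_exp_smul_const (-W) t)
  refine h1.congr_deriv ?_
  simp only [mul_neg, ← sub_eq_add_neg, mul_assoc]

/-- `K`-part of the Lie algebra exponentiates into `KK` -/
lemma exp_mem_KK {W : E →L[ℝ] E} (hW : W ∈ lieA G) (hs : star W = -W) (t : ℝ) :
    exp (t • W) ∈ KK G := by
  refine ⟨?_, uexp (t • W), mem_lieA.1 hW t, rfl⟩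
  rw [star_exp, star_smul, hs, smul_neg]
  simpa using exp_neg_mul_self (t • W)

lemma star_exp_of_skew {W : E →L[ℝ] E} (hs : star W = -W) (t : ℝ) :
    star (exp (t • W)) = exp (t • (-W)) := by
  rw [star_exp, star_smul, hs]
  simp

lemma KK_mul {k k' : E →L[ℝ] E} (hk : k ∈ KK G) (hk' : k' ∈ KK G) : k * k' ∈ KK G := by
  obtain ⟨h1, g, hg, rfl⟩ := hk
  obtain ⟨h2, g', hg', rfl⟩ := hk'
  refine ⟨?_, g * g', G.mul_mem hg hg', rfl⟩
  rw [star_mul]
  calc star (g' : E →L[ℝ] E) * star (g : E →L[ℝ] E) * ((g : E →L[ℝ] E) * (g' : E →L[ℝ] E))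
      = star (g' : E →L[ℝ] E) * (star (g : E →L[ℝ] E) * (g : E →L[ℝ] E)) * (g' : E →L[ℝ] E) := by
        simp only [mul_assoc]
    _ = 1 := by rw [h1, mul_one, h2]

lemma KK_star {k : E →L[ℝ] E} (hk : k ∈ KK G) : star k ∈ KK G := by
  obtain ⟨h1, g, hg, rfl⟩ := hk
  refine ⟨by rw [star_star]; exact mul_star_of_star_mul h1, g⁻¹, G.inv_mem hg, ?_⟩
  have h2 : star (g : E →L[ℝ] E) * g = 1 := h1
  calc ((g⁻¹ : (E →L[ℝ] E)ˣ) : E →L[ℝ] E)
      = (star (g : E →L[ℝ] E) * g) * ((g⁻¹ : (E →L[ℝ] E)ˣ) : E →L[ℝ] E) := by rw [h2, one_mul]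
    _ = star (g : E →L[ℝ] E) := by rw [mul_assoc, Units.mul_inv, mul_one]

lemma one_mem_KK : (1 : E →L[ℝ] E) ∈ KK G := ⟨by simp, 1, G.one_mem, rfl⟩

lemma lieA_conj_KK {Z : E →L[ℝ] E} (hZ : Z ∈ lieA G) {k : E →L[ℝ] E} (hk : k ∈ KK G) :
    k * Z * star k ∈ lieA G := by
  have hk' := hk
  obtain ⟨h1, g, hg, rfl⟩ := hk
  have h3 := lieA_conj hZ hg
  have h2 : ((g⁻¹ : (E →L[ℝ] E)ˣ) : E →L[ℝ] E) = star (g : E →L[ℝ] E) := by
    calc ((g⁻¹ : (E →L[ℝ] E)ˣ) : E →L[ℝ] E)
        = (star (g : E →L[ℝ] E) * g) * ((g⁻¹ : (E →L[ℝ] E)ˣ) : E →L[ℝ] E) := by rw [h1, one_mul]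
      _ = star (g : E →L[ℝ] E) := by rw [mul_assoc, Units.mul_inv, mul_one]
  rwa [h2] at h3

/-- **maximum principle** -/
theorem max_principle (hG : SG G) (hA : CartanA G A) {H0 : E →L[ℝ] E} (hH0 : H0 ∈ A)
    (hreg : ∀ Y ∈ lieA G, star Y = Y → Y * H0 = H0 * Y → Y ∈ A)
    {S : E →L[ℝ] E} (hS : S ∈ lieA G) (hSs : star S = S) :
    ∃ k ∈ KK G, k * S * star k ∈ A ∧
      ∀ Z ∈ lieA G, Z ≠ 0 → ∀ y h : ℝ, (k * S * star k) * Z - Z * (k * S * star k) = y • Z →
        H0 * Z - Z * H0 = h • Z → 0 < h → 0 ≤ y := by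
  have hH0s := hA.symm H0 hH0
  have hH0m := hA.mem H0 hH0
  obtain ⟨k, hk, hmax⟩ := (isCompact_KK hG).exists_isMaxOn ⟨1, one_mem_KK⟩
    (f := fun k : E →L[ℝ] E => trc (k * S * star k * H0)) (by
      apply Continuous.continuousOn
      exact trc.continuous.comp (((continuous_id.mul continuous_const).mul continuous_star).mul
        continuous_const))
  refine ⟨k, hk, ?_⟩
  obtain ⟨Y, hY⟩ : ∃ Y : E →L[ℝ] E, Y = k * S * star k := ⟨_, rfl⟩
  rw [← hY]
  have hYs : star Y = Y := by rw [hY]; simp [mul_assoc, hSs]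
  have hYm : Y ∈ lieA G := by rw [hY]; exact lieA_conj_KK hS hk
  -- variation
  have var : ∀ W ∈ lieA G, star W = -W →
      IsLocalMax (fun t : ℝ => trc (exp (t • W) * Y * exp (t • (-W)) * H0)) 0 := by
    intro W hW hs
    refine Eventually.of_forall fun t => ?_
    have h1 := hmax (KK_mul (exp_mem_KK hW hs t) hk)
    have e : exp (t • W) * k * S * star (exp (t • W) * k) * H0 =
        exp (t • W) * Y * exp (t • (-W)) * H0 := by
      rw [star_mul, star_exp_of_skew hs, hY]
      simp only [mul_assoc]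
    simp only [Set.mem_ofPred_eq] at h1
    rw [e, ← hY] at h1
    simpa using h1
  have hd : ∀ (W U : E →L[ℝ] E) (t : ℝ), HasDerivAt
      (fun t : ℝ => trc (exp (t • W) * Y * exp (t • (-W)) * U))
      (trc ((W * (exp (t • W) * Y * exp (t • (-W))) - (exp (t • W) * Y * exp (t • (-W))) * W)
        * U)) t := by
    intro W U t
    have := ((hasDerivAt_conj W Y t).mul_const U)
    exact trc.hasFDerivAt.comp_hasDerivAt t this
  -- first order
  have hcomm : Y * H0 = H0 * Y := by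
    set W : E →L[ℝ] E := Y * H0 - H0 * Y with hW
    have hWm : W ∈ lieA G := lieA_bracket hG hYm hH0m
    have hWs : star W = -W := by rw [hW]; simp [hYs, hH0s]
    have h1 := (var W hWm hWs).hasDerivAt_eq_zero (hd W H0 0)
    simp only [zero_smul, exp_zero, one_mul, mul_one] at h1
    have h2 : trc ((W * Y - Y * W) * H0) = trc (W * W) := by
      rw [sub_mul, map_sub, mul_assoc W Y H0, mul_assoc Y W H0, trc_mul_comm Y (W * H0),
        mul_assoc W H0 Y, ← map_sub, ← mul_sub, ← hW]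
    rw [h2] at h1
    have h3 : trc (star W * W) = 0 := by rw [hWs, neg_mul, map_neg, h1, neg_zero]
    have h4 := eq_zero_of_trc h3
    exact sub_eq_zero.1 (hW ▸ h4)
  refine ⟨hreg Y hYm hYs hcomm, ?_⟩
  intro Z hZ hZ0 y h hy hh hpos
  by_contra hneg
  push Not at hneg
  have hyZ : Y * star Z - star Z * Y = -(y • star Z) := by
    have := congrArg star hy
    simp only [star_sub, star_mul, star_smul, hYs] at this
    have h2 : star Z * Y - Y * star Z = y • star Z := by simpa using this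
    rw [← h2]; abel
  have hhZ : H0 * star Z - star Z * H0 = -(h • star Z) := by
    have := congrArg star hh
    simp only [star_sub, star_mul, star_smul, hH0s] at this
    have h2 : star Z * H0 - H0 * star Z = h • star Z := by simpa using this
    rw [← h2]; abel
  set W : E →L[ℝ] E := Z - star Z with hW
  have hWm : W ∈ lieA G := (lieSub hG).sub_mem hZ (lieA_star hG hZ)
  have hWs : star W = -W := by rw [hW]; simp
  set Q : E →L[ℝ] E := Z + star Z with hQ
  have hWY : W * Y - Y * W = -(y • Q) := by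
    have : W * Y - Y * W = -(Y * Z - Z * Y) + (Y * star Z - star Z * Y) := by
      rw [hW]; noncomm_ring
    rw [this, hy, hyZ, hQ, smul_add]; abel
  have hWH : W * H0 - H0 * W = -(h • Q) := by
    have : W * H0 - H0 * W = -(H0 * Z - Z * H0) + (H0 * star Z - star Z * H0) := by
      rw [hW]; noncomm_ring
    rw [this, hh, hhZ, hQ, smul_add]; abel
  have hQs : star Q = Q := by rw [hQ]; simp [add_comm]
  have hQ0 : Q ≠ 0 := by
    intro h0
    have h1 : star Z = -Z := by rw [hQ] at h0; exact eq_neg_of_add_eq_zero_right h0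
    rw [h1] at hhZ
    have h2 : H0 * (-Z) - -Z * H0 = -(h • Z) := by rw [← hh]; noncomm_ring
    rw [h2] at hhZ
    have h3 : (2 * h) • Z = 0 := by
      have : h • Z + h • Z = 0 := by
        have h4 : -(h • Z) = h • Z := by rw [hhZ]; simp
        nth_rewrite 1 [← h4]
        simp
      rw [two_mul, add_smul]; exact this
    rcases smul_eq_zero.1 h3 with h5 | h5
    · linarith
    · exact hZ0 h5
  -- second order
  have h2nd : trc ((W * (W * Y - Y * W) - (W * Y - Y * W) * W) * H0) ≤ 0 := by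
    have hdd : HasDerivAt (fun t : ℝ => trc ((W * (exp (t • W) * Y * exp (t • (-W)))
        - (exp (t • W) * Y * exp (t • (-W))) * W) * H0))
        (trc ((W * (W * Y - Y * W) - (W * Y - Y * W) * W) * H0)) 0 := by
      have hc := hasDerivAt_conj W Y 0
      simp only [zero_smul, exp_zero, one_mul, mul_one] at hc
      have := ((hc.const_mul W).sub (hc.mul_const W)).mul_const H0
      exact trc.hasFDerivAt.comp_hasDerivAt (0 : ℝ) this
    exact max_second (fun t => hd W H0 t) hdd (var W hWm hWs)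
  rw [hWY] at h2nd
  have e1 : trc ((W * -(y • Q) - -(y • Q) * W) * H0) = -(y * h) * trc (Q * Q) := by
    have e2 : trc ((W * -(y • Q) - -(y • Q) * W) * H0) = y * trc (Q * (W * H0 - H0 * W)) := by
      have e3 : (W * -(y • Q) - -(y • Q) * W) * H0 = y • (Q * (W * H0) - (W * Q) * H0) := by
        rw [smul_sub]
        simp only [mul_neg, neg_mul, smul_mul_assoc, mul_smul_comm, sub_mul, mul_assoc]
        abel
      have e4 : trc (Q * (W * H0) - (W * Q) * H0) = trc (Q * (W * H0 - H0 * W)) := by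
        rw [map_sub, mul_assoc W Q H0, trc_mul_comm W (Q * H0), mul_sub Q, map_sub,
          mul_assoc Q H0 W]
      rw [e3, map_smul, smul_eq_mul, e4]
    rw [e2, hWH, mul_neg, map_neg, mul_smul_comm, map_smul, smul_eq_mul]
    ring
  rw [e1] at h2nd
  have hQQ : 0 < trc (Q * Q) := by
    have := trc_star_mul_self_pos hQ0
    rwa [hQs] at this
  have : 0 < -(y * h) := by nlinarith
  nlinarith

end Abstract

end Pool.Agent.Lib.MP_d9b062_al.H64
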