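import Pool.Agent.Lib.MP_d9b062_al_h64.Struct

/-!
# Polar decomposition in self-adjoint Zariski closed groups
-/

namespace Pool.Agent.Lib.MP_d9b062_al.H64

open NormedSpace Filter
open scoped Topology InnerProductSpace

set_option linter.unusedSectionVars false

/-! ### finite sums of real exponentials -/

/-- finite sums of exponentials -/
def ES : Set (ℝ → ℝ) := {f | ∃ (s : Finset ℝ) (c : ℝ → ℝ), ∀ t, f t = ∑ ρ ∈ s, c ρ * Real.exp (ρ * t)}

lemma ES_iff_span {f : ℝ → ℝ} :
    f ∈ ES ↔ f ∈ Submodule.span ℝ (Set.range fun (ρ : ℝ) (t : ℝ) => Real.exp (ρ * t)) := by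
  constructor
  · rintro ⟨s, c, h⟩
    have : f = ∑ ρ ∈ s, c ρ • (fun t => Real.exp (ρ * t)) := by
      ext t
      rw [h t, Finset.sum_apply]
      rfl
    rw [this]
    exact Submodule.sum_mem _ fun ρ _ => Submodule.smul_mem _ _ (Submodule.subset_span ⟨ρ, rfl⟩)
  · intro h
    obtain ⟨c, rfl⟩ := Finsupp.mem_span_range_iff_exists_finsupp.1 h
    refine ⟨c.support, c, fun t => ?_⟩
    simp only [Finsupp.sum, Finset.sum_apply, Pi.smul_apply, smul_eq_mul]

lemma ES.add {f g : ℝ → ℝ} (hf : f ∈ ES) (hg : g ∈ ES) : (fun t => f t + g t) ∈ ES := by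
  rw [ES_iff_span] at hf hg ⊢
  exact Submodule.add_mem _ hf hg

lemma ES.const (c : ℝ) : (fun _ => c) ∈ ES := ⟨{0}, fun _ => c, fun t => by simp⟩

lemma ES.exp (c ρ : ℝ) : (fun t => c * Real.exp (ρ * t)) ∈ ES :=
  ⟨{ρ}, fun _ => c, fun t => by simp⟩

lemma ES.sum {κ : Type*} (s : Finset κ) {f : κ → ℝ → ℝ} (hf : ∀ i ∈ s, f i ∈ ES) :
    (fun t => ∑ i ∈ s, f i t) ∈ ES := by
  classical
  induction s using Finset.induction_on with
  | empty => simpa using ES.const 0
  | insert a s ha ih =>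
    simp only [Finset.sum_insert ha]
    exact ES.add (hf a (Finset.mem_insert_self _ _))
      (ih fun i hi => hf i (Finset.mem_insert_of_mem hi))

lemma ES.mul {f g : ℝ → ℝ} (hf : f ∈ ES) (hg : g ∈ ES) : (fun t => f t * g t) ∈ ES := by
  obtain ⟨s, c, hf⟩ := hf
  obtain ⟨s', c', hg⟩ := hg
  have : (fun t => f t * g t) = fun t => ∑ ρ ∈ s, ∑ ρ' ∈ s', (c ρ * c' ρ') *
      Real.exp ((ρ + ρ') * t) := by
    ext t
    rw [hf, hg, Finset.sum_mul_sum]
    refine Finset.sum_congr rfl fun ρ _ => Finset.sum_congr rfl fun ρ' _ => ?_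
    rw [add_mul, Real.exp_add]; ring
  rw [this]
  exact ES.sum _ fun ρ _ => ES.sum _ fun ρ' _ => ES.exp _ _

/-- an exponential sum vanishing on the natural numbers is zero -/
lemma ES.eq_zero {f : ℝ → ℝ} (hf : f ∈ ES) (h : ∀ n : ℕ, f n = 0) (t : ℝ) : f t = 0 := by
  obtain ⟨s, c, hf⟩ := hf
  have hc : ∀ ρ ∈ s, c ρ = 0 := by
    have hli := linearIndependent_monoidHom (Multiplicative ℕ) ℝ
    let χ : ℝ → (Multiplicative ℕ →* ℝ) := fun ρ => powersHom ℝ (Real.exp ρ)
    have hinj : Function.Injective χ := by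
      intro a b hab
      have := congrArg (fun φ : Multiplicative ℕ →* ℝ => φ (Multiplicative.ofAdd 1)) hab
      simp only [χ, powersHom_apply, toAdd_ofAdd, pow_one] at this
      exact Real.exp_injective this
    have hli2 := hli.comp χ hinj
    have h3 : ∑ ρ ∈ s, c ρ • ((fun f : Multiplicative ℕ →* ℝ => (f : Multiplicative ℕ → ℝ)) ∘ χ) ρ
        = 0 := by
      ext n
      rw [Finset.sum_apply]
      have := h (Multiplicative.toAdd n)
      rw [hf] at this
      simp only [Pi.smul_apply, Function.comp_apply, χ, powersHom_apply, smul_eq_mul, Pi.zero_apply]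
      rw [← this]
      refine Finset.sum_congr rfl fun ρ _ => ?_
      rw [← Real.exp_nat_mul, mul_comm ρ]
    exact fun ρ hρ => linearIndependent_iff'.1 hli2 s c h3 ρ hρ
  rw [hf]
  exact Finset.sum_eq_zero fun ρ hρ => by rw [hc ρ hρ, zero_mul]

section Abstract

variable {E : Type*} [NormedAddCommGroup E] [InnerProductSpace ℝ E] [CompleteSpace E]
  [FiniteDimensional ℝ E]

lemma opmul_apply (S T : E →L[ℝ] E) (v : E) : (S * T) v = S (T v) := rfl

/-! ### diagonal operators -/

section diag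

variable {κ : Type*} [Fintype κ] (b : OrthonormalBasis κ ℝ E)

/-- diagonal operator in an orthonormal basis -/
noncomputable def dg (f : κ → ℝ) : E →L[ℝ] E :=
  ∑ i, f i • (innerSL ℝ (b i)).smulRight (b i)

lemma dg_apply (f : κ → ℝ) (v : E) : dg b f v = ∑ i, (f i * ⟪b i, v⟫_ℝ) • b i := by
  simp [dg, smul_smul]

lemma dg_basis (f : κ → ℝ) (j : κ) : dg b f (b j) = f j • b j := by
  classical
  rw [dg_apply]
  simp [OrthonormalBasis.inner_eq_ite]

lemma dg_ext {S T : E →L[ℝ] E} (h : ∀ j, S (b j) = T (b j)) : S = T := by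
  have : (S : E →ₗ[ℝ] E) = T := b.toBasis.ext fun j => by simpa using h j
  ext v
  exact LinearMap.congr_fun this v

lemma dg_mul (f g : κ → ℝ) : dg b f * dg b g = dg b (f * g) := by
  apply dg_ext b
  intro j
  rw [opmul_apply, dg_basis, map_smul, dg_basis, dg_basis, smul_smul]
  simp [mul_comm]

lemma dg_one : dg b 1 = 1 := by
  apply dg_ext b
  intro j
  rw [dg_basis]; simp

lemma dg_add (f g : κ → ℝ) : dg b (f + g) = dg b f + dg b g := by
  simp [dg, add_smul, Finset.sum_add_distrib]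

lemma dg_smul (c : ℝ) (f : κ → ℝ) : dg b (c • f) = c • dg b f := by
  simp [dg, Finset.smul_sum, smul_smul]

lemma dg_star (f : κ → ℝ) : star (dg b f) = dg b f := by
  rw [ContinuousLinearMap.star_eq_adjoint]
  symm
  rw [ContinuousLinearMap.eq_adjoint_iff]
  intro x y
  rw [dg_apply, dg_apply, sum_inner, inner_sum]
  refine Finset.sum_congr rfl fun i _ => ?_
  rw [inner_smul_left, inner_smul_right, real_inner_comm x (b i)]
  simp; ring

/-- the ring homomorphism -/
noncomputable def dgHom : (κ → ℝ) →+* (E →L[ℝ] E) where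
  toFun := dg b
  map_one' := dg_one b
  map_mul' f g := (dg_mul b f g).symm
  map_zero' := by simp [dg]
  map_add' := dg_add b

lemma dg_exp (f : κ → ℝ) : exp (dg b f) = dg b (fun i => Real.exp (f i)) := by
  let : NormedAlgebra ℚ (E →L[ℝ] E) := NormedAlgebra.restrictScalars ℚ ℝ (E →L[ℝ] E)
  have hc : Continuous (dgHom b) := by
    have : Continuous (dg b) := by
      unfold dg
      fun_prop
    exact this
  have h := map_exp (dgHom b) hc f
  have h1 : dgHom b f = dg b f := rfl
  rw [← h1, ← h]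
  show dg b (exp f) = _
  congr 1
  ext i
  rw [Pi.exp_def, Real.exp_eq_exp_ℝ]

/-- polynomial functions along a diagonal one-parameter group -/
lemma polyFun_dg_mem_ES {F : (E →L[ℝ] E) → ℝ} (hF : F ∈ PolyFun (E →L[ℝ] E)) (a : κ → ℝ) :
    (fun t : ℝ => F (dg b (fun i => Real.exp (a i * t)))) ∈ ES := by
  refine PolyFun.induction
    (p := fun F => (fun t : ℝ => F (dg b (fun i => Real.exp (a i * t)))) ∈ ES) ?_ ?_ ?_ ?_ hF
  · intro φ
    have : (fun t : ℝ => φ (dg b (fun i => Real.exp (a i * t)))) =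
        fun t : ℝ => ∑ i, φ ((innerSL ℝ (b i)).smulRight (b i)) * Real.exp (a i * t) := by
      ext t
      rw [dg, map_sum]
      refine Finset.sum_congr rfl fun i _ => ?_
      rw [map_smul, smul_eq_mul, mul_comm]
    rw [this]
    exact ES.sum _ fun i _ => ES.exp _ _
  · exact fun c => ES.const c
  · exact fun f g hf hg => ES.add hf hg
  · exact fun f g hf hg => ES.mul hf hg

end diag

variable {G : Subgroup (E →L[ℝ] E)ˣ}

lemma uexp_nsmul (S : E →L[ℝ] E) (n : ℕ) : uexp ((n : ℝ) • S) = uexp S ^ n := by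
  induction n with
  | zero => ext1; simp
  | succ n ih =>
    rw [pow_succ, ← ih]
    ext1
    simp only [Nat.cast_add, Nat.cast_one, Units.val_mul, uexp_val]
    rw [add_smul, one_smul, exp_add_op (by simp)]

/-- logarithm of positive elements of `G` -/
theorem exists_log (hG : SG G) {P : (E →L[ℝ] E)ˣ} (hP : P ∈ G)
    (hsym : star (P : E →L[ℝ] E) = P) (hpos : ∀ v : E, v ≠ 0 → 0 < ⟪(P : E →L[ℝ] E) v, v⟫_ℝ) :
    ∃ S ∈ lieA G, star S = S ∧ uexp S = P := by
  have hs : LinearMap.IsSymmetric ((P : E →L[ℝ] E) : E →ₗ[ℝ] E) := by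
    rw [← ContinuousLinearMap.isSelfAdjoint_iff_isSymmetric]
    exact hsym
  obtain ⟨n, hn⟩ : ∃ n, Module.finrank ℝ E = n := ⟨_, rfl⟩
  set b := hs.eigenvectorBasis hn with hb
  set lam := hs.eigenvalues hn with hlam
  have hPb : ∀ i, (P : E →L[ℝ] E) (b i) = lam i • b i := fun i =>
    hs.apply_eigenvectorBasis hn i
  have hlpos : ∀ i, 0 < lam i := by
    intro i
    have h1 := hpos (b i) (b.orthonormal.ne_zero i)
    rw [hPb, inner_smul_left, real_inner_self_eq_norm_sq, b.orthonormal.1 i] at h1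
    simpa using h1
  have hPd : (P : E →L[ℝ] E) = dg b lam := by
    apply dg_ext b
    intro j
    rw [hPb, dg_basis]
  set S : E →L[ℝ] E := dg b (fun i => Real.log (lam i)) with hS
  have hexp : ∀ t : ℝ, exp (t • S) = dg b (fun i => Real.exp (Real.log (lam i) * t)) := by
    intro t
    rw [hS, ← dg_smul, dg_exp]
    congr 1
    ext i
    simp [mul_comm]
  have hu : uexp S = P := by
    ext1
    rw [uexp_val]
    have := hexp 1
    rw [one_smul] at this
    rw [this, hPd]
    congr 1
    ext i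
    rw [mul_one, Real.exp_log (hlpos i)]
  refine ⟨S, ?_, dg_star b _, hu⟩
  rw [mem_lieA]
  intro t
  apply hG.closed
  intro F hF hv
  rw [uexp_val, hexp]
  refine ES.eq_zero (polyFun_dg_mem_ES b hF fun i => Real.log (lam i)) (fun n => ?_) t
  rw [← hexp, ← uexp_val, uexp_nsmul, hu]
  exact hv _ (G.pow_mem hP n)

/-- **polar decomposition** -/
theorem polar (hG : SG G) {g : (E →L[ℝ] E)ˣ} (hg : g ∈ G) :
    ∃ k ∈ G, ∃ S ∈ lieA G, star (k : E →L[ℝ] E) * k = 1 ∧ star S = S ∧ g = k * uexp S := by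
  have hgs := hG.star_mem g hg
  have hP : star g * g ∈ G := G.mul_mem hgs hg
  obtain ⟨S, hS, hSs, hSe⟩ := exists_log hG hP (by simp) (by
    intro v hv
    simp only [Units.val_mul, Units.coe_star]
    rw [opmul_apply, ContinuousLinearMap.star_eq_adjoint,
      ContinuousLinearMap.adjoint_inner_left, real_inner_self_eq_norm_sq]
    have : (g : E →L[ℝ] E) v ≠ 0 := by
      intro h0
      apply hv
      have h1 : ((g⁻¹ : (E →L[ℝ] E)ˣ) : E →L[ℝ] E) ((g : E →L[ℝ] E) v) = v := by
        rw [← opmul_apply, ← Units.val_mul, inv_mul_cancel]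
        rfl
      rw [h0, map_zero] at h1
      exact h1.symm
    have := norm_pos_iff.2 this
    positivity)
  have hT : (1 / 2 : ℝ) • S ∈ lieA G := (lieSub hG).smul_mem _ hS
  set T : E →L[ℝ] E := (1 / 2 : ℝ) • S with hTdef
  have hTT : T + T = S := by rw [hTdef, ← add_smul]; norm_num
  have hTs : star T = T := by rw [hTdef, star_smul, hSs]; simp
  have hTe : ∀ t : ℝ, uexp (t • T) ∈ G := mem_lieA.1 hT
  have h1 : uexp T ∈ G := by simpa using hTe 1
  refine ⟨g * uexp (-T), G.mul_mem hg (by rw [← uexp_inv_val]; exact G.inv_mem h1), T, hT, ?_, hTs,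
    ?_⟩
  · have e1 : star (uexp (-T)) = uexp (-T) := by
      ext1
      rw [Units.coe_star, uexp_val, star_exp, star_neg, hTs]
    have e2 : (star (g * uexp (-T)) : (E →L[ℝ] E)ˣ) * (g * uexp (-T)) = 1 := by
      rw [star_mul, e1]
      have : uexp (-T) * star g * (g * uexp (-T)) = uexp (-T) * (star g * g) * uexp (-T) := by
        group
      rw [this, ← hSe]
      ext1
      simp only [Units.val_mul, uexp_val, Units.val_one]
      rw [← hTT, exp_add_op rfl]
      calc exp (-T) * (exp T * exp T) * exp (-T)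
          = (exp (-T) * exp T) * (exp T * exp (-T)) := by simp only [mul_assoc]
        _ = 1 := by rw [exp_neg_mul_self, exp_mul_neg_self, one_mul]
    have := congrArg (fun u : (E →L[ℝ] E)ˣ => (u : E →L[ℝ] E)) e2
    simpa using this
  · rw [mul_assoc]
    have : uexp (-T) * uexp T = 1 := by
      ext1
      simp only [Units.val_mul, uexp_val, Units.val_one]
      exact exp_neg_mul_self T
    rw [this, mul_one]

end Abstract

end Pool.Agent.Lib.MP_d9b062_al.H64
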