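import Pool.Agent.Lib.MP_d9b062_al.Poly

/-!
# Structure of self-adjoint Zariski closed groups: the Lie algebra

Everything is done for an abstract finite-dimensional inner product space `E`; the concrete case is
`E = V N` (simp works much better for abstract `E`).
-/

namespace Pool.Agent.Lib.MP_d9b062_al.H64

open NormedSpace Filter
open scoped Topology

set_option linter.unusedSectionVars false

section Abstract

variable {E : Type*} [NormedAddCommGroup E] [InnerProductSpace ℝ E] [CompleteSpace E]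
  [FiniteDimensional ℝ E]

/-- Lie algebra of a linear group -/
def lieA (G : Subgroup (E →L[ℝ] E)ˣ) : Set (E →L[ℝ] E) :=
  {Z | ∀ t : ℝ, ∃ g ∈ G, (g : E →L[ℝ] E) = exp (t • Z)}

/-- connected, Zariski closed, self-adjoint linear groups (`PolyFun` version) -/
structure SG (G : Subgroup (E →L[ℝ] E)ˣ) : Prop where
  closed : ∀ g : (E →L[ℝ] E)ˣ, (∀ F ∈ PolyFun (E →L[ℝ] E),
    (∀ k ∈ G, F (k : E →L[ℝ] E) = 0) → F (g : E →L[ℝ] E) = 0) → g ∈ G
  connected : ∀ F ∈ PolyFun (E →L[ℝ] E),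
    (∀ l : List (E →L[ℝ] E), (∀ Z ∈ l, Z ∈ lieA G) → F (l.map exp).prod = 0) →
    ∀ g ∈ G, F (g : E →L[ℝ] E) = 0
  star_mem : ∀ g ∈ G, star g ∈ G

variable {G : Subgroup (E →L[ℝ] E)ˣ}

/-! ### the exponential -/

lemma exp_add_op {x y : (E →L[ℝ] E)} (h : x * y = y * x) : exp (x + y) = exp x * exp y := by
  let : NormedAlgebra ℚ (E →L[ℝ] E) := NormedAlgebra.restrictScalars ℚ ℝ (E →L[ℝ] E)
  exact exp_add_of_commute h

lemma exp_conj_op (x : (E →L[ℝ] E)) (y : (E →L[ℝ] E)ˣ) :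
    exp ((y : (E →L[ℝ] E)) * x * ((y⁻¹ : (E →L[ℝ] E)ˣ) : (E →L[ℝ] E))) = y * exp x * ((y⁻¹ : (E →L[ℝ] E)ˣ) : (E →L[ℝ] E)) := by
  let : NormedAlgebra ℚ (E →L[ℝ] E) := NormedAlgebra.restrictScalars ℚ ℝ (E →L[ℝ] E)
  exact exp_units_conj y x

lemma exp_neg_mul_self (x : (E →L[ℝ] E)) : exp (-x) * exp x = 1 := by
  rw [← exp_add_op (by simp), neg_add_cancel, exp_zero]

lemma exp_mul_neg_self (x : (E →L[ℝ] E)) : exp x * exp (-x) = 1 := by
  rw [← exp_add_op (by simp), add_neg_cancel, exp_zero]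

/-- the exponential as a unit -/
noncomputable def uexp (x : (E →L[ℝ] E)) : (E →L[ℝ] E)ˣ :=
  ⟨exp x, exp (-x), exp_mul_neg_self x, exp_neg_mul_self x⟩

@[simp] lemma uexp_val (x : (E →L[ℝ] E)) : (uexp x : (E →L[ℝ] E)) = exp x := rfl
@[simp] lemma uexp_inv_val (x : (E →L[ℝ] E)) : ((uexp x)⁻¹ : (E →L[ℝ] E)ˣ) = uexp (-x) := by
  ext1
  rfl

lemma continuous_exp_op : Continuous (exp : (E →L[ℝ] E) → (E →L[ℝ] E)) := by
  let : NormedAlgebra ℚ (E →L[ℝ] E) := NormedAlgebra.restrictScalars ℚ ℝ (E →L[ℝ] E)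
  exact exp_continuous

lemma mem_lieA {Z : (E →L[ℝ] E)} : Z ∈ lieA G ↔ ∀ t : ℝ, uexp (t • Z) ∈ G := by
  constructor
  · intro h t
    obtain ⟨g, hg, he⟩ := h t
    have : g = uexp (t • Z) := by ext1; exact he
    rwa [← this]
  · intro h t
    exact ⟨_, h t, rfl⟩

/-- The right invariant derivation attached to `Z`. -/
noncomputable def RD (Z : (E →L[ℝ] E)) (F : (E →L[ℝ] E) → ℝ) (T : (E →L[ℝ] E)) : ℝ := fderiv ℝ F T (T * Z)

lemma PolyFun.differentiable {E : Type*} [NormedAddCommGroup E] [NormedSpace ℝ E]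
    [FiniteDimensional ℝ E] {F : E → ℝ} (hF : F ∈ PolyFun E) : Differentiable ℝ F :=
  (PolyFun.contDiff hF (n := 1)).differentiable one_ne_zero

lemma RD_mem (Z : (E →L[ℝ] E)) {F : (E →L[ℝ] E) → ℝ} (hF : F ∈ PolyFun (E →L[ℝ] E)) : RD Z F ∈ PolyFun (E →L[ℝ] E) := by
  have key : ∀ F ∈ PolyFun (E →L[ℝ] E), RD Z F ∈ PolyFun (E →L[ℝ] E) := by
    intro F hF
    have : F ∈ PolyFun (E →L[ℝ] E) ∧ RD Z F ∈ PolyFun (E →L[ℝ] E) := by
      refine PolyFun.induction (p := fun F => F ∈ PolyFun (E →L[ℝ] E) ∧ RD Z F ∈ PolyFun (E →L[ℝ] E))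
        ?_ ?_ ?_ ?_ hF
      · intro φ
        refine ⟨PolyFun.linear φ, ?_⟩
        have e : RD Z φ = fun T => φ (T * Z) := by
          ext T
          have : (φ : (E →L[ℝ] E) → ℝ) = (LinearMap.toContinuousLinearMap φ : (E →L[ℝ] E) → ℝ) := rfl
          rw [RD, this, ContinuousLinearMap.fderiv]
        rw [e]
        let ψ : (E →L[ℝ] E) →ₗ[ℝ] ℝ := φ ∘ₗ (LinearMap.mulRight ℝ Z)
        exact PolyFun.linear ψ
      · intro c
        refine ⟨PolyFun.const c, ?_⟩
        have e : RD Z (fun _ => c) = fun _ => (0 : ℝ) := by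
          ext T; simp [RD]
        rw [e]
        exact PolyFun.const 0
      · rintro f g ⟨hf, hf'⟩ ⟨hg, hg'⟩
        refine ⟨PolyFun.add hf hg, ?_⟩
        have e : RD Z (fun x => f x + g x) = fun T => RD Z f T + RD Z g T := by
          ext T
          simp only [RD]
          rw [fderiv_fun_add (PolyFun.differentiable hf T) (PolyFun.differentiable hg T)]
          rfl
        rw [e]
        exact PolyFun.add hf' hg'
      · rintro f g ⟨hf, hf'⟩ ⟨hg, hg'⟩
        refine ⟨PolyFun.mul hf hg, ?_⟩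
        have e : RD Z (fun x => f x * g x) = fun T => f T * RD Z g T + g T * RD Z f T := by
          ext T
          simp only [RD]
          rw [fderiv_fun_mul (PolyFun.differentiable hf T) (PolyFun.differentiable hg T)]
          rfl
        rw [e]
        exact PolyFun.add (PolyFun.mul hf hg') (PolyFun.mul hg hf')
    exact this.2
  exact key F hF

lemma hasDerivAt_RD (Z : (E →L[ℝ] E)) {F : (E →L[ℝ] E) → ℝ} (hF : F ∈ PolyFun (E →L[ℝ] E)) (T : (E →L[ℝ] E)) (t : ℝ) :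
    HasDerivAt (fun t : ℝ => F (T * exp (t • Z))) (RD Z F (T * exp (t • Z))) t := by
  have h1 : HasDerivAt (fun t : ℝ => T * exp (t • Z)) (T * (exp (t • Z) * Z)) t :=
    (hasDerivAt_exp_smul_const Z t).const_mul T
  have h2 := (PolyFun.differentiable hF (T * exp (t • Z))).hasFDerivAt
  have h3 := h2.comp_hasDerivAt t h1
  rw [← mul_assoc] at h3
  exact h3

/-- the ideal of `G` is stable under `RD Z` -/
def IdealStable (G : Subgroup (E →L[ℝ] E)ˣ) (Z : (E →L[ℝ] E)) : Prop :=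
  ∀ F ∈ PolyFun (E →L[ℝ] E), (∀ g ∈ G, F (g : (E →L[ℝ] E)) = 0) → ∀ g ∈ G, RD Z F (g : (E →L[ℝ] E)) = 0

lemma idealStable_of_mem {Z : (E →L[ℝ] E)} (hZ : Z ∈ lieA G) : IdealStable G Z := by
  intro F hF h g hg
  have h1 := hasDerivAt_RD Z hF (g : (E →L[ℝ] E)) 0
  have h2 : (fun t : ℝ => F ((g : (E →L[ℝ] E)) * exp (t • Z))) = fun _ => 0 := by
    ext t
    exact h (g * uexp (t • Z)) (G.mul_mem hg (mem_lieA.1 hZ t))
  rw [h2] at h1
  have h3 := h1.unique (hasDerivAt_const (0 : ℝ) (0 : ℝ))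
  simpa using h3

/-- an analytic function of one variable all of whose derivatives vanish at a point -/
lemma eq_zero_of_derivs {f : ℕ → ℝ → ℝ} (hf : ∀ k t, HasDerivAt (f k) (f (k + 1) t) t)
    (ha : AnalyticOnNhd ℝ (f 0) Set.univ) (h0 : ∀ k, f k 0 = 0) (t : ℝ) : f 0 t = 0 := by
  have hit : ∀ k j, iteratedDeriv k (f j) = f (j + k) := by
    intro k
    induction k with
    | zero => intro j; simp
    | succ k ih =>
      intro j
      rw [iteratedDeriv_succ']
      have : deriv (f j) = f (j + 1) := by ext t; exact (hf j t).deriv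
      rw [this, ih]
      congr 1; ring
  have h1 := (ha 0 (Set.mem_univ _)).hasFPowerSeriesAt
  have h2 : (FormalMultilinearSeries.ofScalars ℝ
      (fun n => iteratedDeriv n (f 0) 0 / n.factorial) : FormalMultilinearSeries ℝ ℝ ℝ) = 0 := by
    ext n
    simp [hit, h0]
  rw [h2] at h1
  have h3 : ∀ᶠ z in 𝓝 (0 : ℝ), f 0 z = 0 := h1.eventually_eq_zero
  have h4 := ha.eqOn_zero_of_preconnected_of_eventuallyEq_zero isPreconnected_univ
    (Set.mem_univ _) h3
  exact h4 (Set.mem_univ t)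

lemma mem_of_idealStable (hG : SG G) {Z : (E →L[ℝ] E)} (h : IdealStable G Z) :
    Z ∈ lieA G := by
  rw [mem_lieA]
  intro t
  apply hG.closed
  intro F hF hv
  have hm : ∀ k, ((RD Z)^[k]) F ∈ PolyFun (E →L[ℝ] E) ∧ ∀ g ∈ G, ((RD Z)^[k]) F (g : (E →L[ℝ] E)) = 0 := by
    intro k
    induction k with
    | zero => exact ⟨hF, hv⟩
    | succ k ih =>
      rw [Function.iterate_succ_apply']
      exact ⟨RD_mem Z ih.1, h _ ih.1 ih.2⟩
  have ha : AnalyticOnNhd ℝ (fun t : ℝ => F ((1 : (E →L[ℝ] E)) * exp (t • Z))) Set.univ := by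
    have h1 : ContDiff ℝ ⊤ F := PolyFun.contDiff hF
    have h2 : AnalyticOnNhd ℝ F Set.univ := by
      intro x _
      exact (h1.contDiffAt (x := x)).analyticAt
    have h3 : ∀ x : (E →L[ℝ] E), AnalyticAt ℝ (exp : (E →L[ℝ] E) → (E →L[ℝ] E)) x := fun x => exp_analytic x
    intro s _
    have h4 : AnalyticAt ℝ (fun t : ℝ => exp (t • Z)) s := by
      have h5 : AnalyticAt ℝ (fun t : ℝ => t • Z) s := analyticAt_id.smul analyticAt_const
      exact (h3 _).comp h5
    have h6 : AnalyticAt ℝ (fun t : ℝ => (1 : (E →L[ℝ] E)) * exp (t • Z)) s := analyticAt_const.mul h4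
    exact (h2 _ (Set.mem_univ _)).comp h6
  have := eq_zero_of_derivs (f := fun k t => ((RD Z)^[k]) F ((1 : (E →L[ℝ] E)) * exp (t • Z)))
    (fun k s => by
      have := hasDerivAt_RD Z (hm k).1 1 s
      simp only [Function.iterate_succ_apply']
      exact this) ha
    (fun k => by
      simp only [zero_smul, exp_zero, mul_one]
      exact (hm k).2 1 G.one_mem) t
  simpa using this

lemma mem_lieA_iff (hG : SG G) {Z : (E →L[ℝ] E)} :
    Z ∈ lieA G ↔ IdealStable G Z := ⟨idealStable_of_mem, mem_of_idealStable hG⟩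

/-- the Lie algebra as a subspace -/
def lieSub (hG : SG G) : Submodule ℝ (E →L[ℝ] E) where
  carrier := lieA G
  add_mem' := by
    intro a b ha hb
    apply mem_of_idealStable hG
    intro F hF h g hg
    have h1 := idealStable_of_mem ha F hF h g hg
    have h2 := idealStable_of_mem hb F hF h g hg
    simp only [RD] at h1 h2 ⊢
    rw [mul_add, map_add, h1, h2, add_zero]
  zero_mem' := by
    rw [mem_lieA]
    intro t
    have : uexp (t • (0 : (E →L[ℝ] E))) = 1 := by ext1; simp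
    rw [this]
    exact G.one_mem
  smul_mem' := by
    intro c a ha
    rw [mem_lieA] at ha ⊢
    intro t
    rw [smul_smul]
    exact ha _

@[simp] lemma mem_lieSub (hG : SG G) {Z : (E →L[ℝ] E)} :
    Z ∈ lieSub hG ↔ Z ∈ lieA G := Iff.rfl

lemma lieA_conj {Z : (E →L[ℝ] E)} (hZ : Z ∈ lieA G) {g : (E →L[ℝ] E)ˣ} (hg : g ∈ G) :
    (g : (E →L[ℝ] E)) * Z * ((g⁻¹ : (E →L[ℝ] E)ˣ) : (E →L[ℝ] E)) ∈ lieA G := by
  rw [mem_lieA] at hZ ⊢
  intro t
  have : uexp (t • ((g : (E →L[ℝ] E)) * Z * ((g⁻¹ : (E →L[ℝ] E)ˣ) : (E →L[ℝ] E)))) = g * uexp (t • Z) * g⁻¹ := by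
    ext1
    simp only [Units.val_mul, uexp_val]
    rw [← exp_conj_op]
    congr 1
    simp
  rw [this]
  exact G.mul_mem (G.mul_mem hg (hZ t)) (G.inv_mem hg)

lemma lieA_star (hG : SG G) {Z : (E →L[ℝ] E)} (hZ : Z ∈ lieA G) :
    star Z ∈ lieA G := by
  rw [mem_lieA] at hZ ⊢
  intro t
  have : uexp (t • star Z) = star (uexp (t • Z)) := by
    ext1
    simp only [uexp_val, Units.coe_star]
    rw [star_exp]
    simp
  rw [this]
  exact hG.star_mem _ (hZ t)

/-- the derivative at `0` of a curve in the Lie algebra is in the Lie algebra -/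
lemma deriv_mem_lieSub (hG : SG G) {c : ℝ → (E →L[ℝ] E)} {Z : (E →L[ℝ] E)} {s : ℝ}
    (hc : HasDerivAt c Z s) (hm : ∀ t, c t ∈ lieA G) : Z ∈ lieA G := by
  have hcl : IsClosed ((lieSub hG : Submodule ℝ (E →L[ℝ] E)) : Set (E →L[ℝ] E)) :=
    Submodule.closed_of_finiteDimensional _
  have h1 := hasDerivAt_iff_tendsto_slope.1 hc
  have : Z ∈ ((lieSub hG : Submodule ℝ (E →L[ℝ] E)) : Set (E →L[ℝ] E)) := by
    refine hcl.mem_of_tendsto h1 (Eventually.of_forall fun t => ?_)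
    rw [slope_def_module]
    exact (lieSub hG).smul_mem _ ((lieSub hG).sub_mem (hm t) (hm s))
  exact this

lemma lieA_bracket (hG : SG G) {X Z : (E →L[ℝ] E)} (hX : X ∈ lieA G)
    (hZ : Z ∈ lieA G) : X * Z - Z * X ∈ lieA G := by
  have h1 : HasDerivAt (fun t : ℝ => exp (t • X) * Z * exp (t • (-X)))
      ((X * exp ((0 : ℝ) • X)) * Z * exp ((0 : ℝ) • (-X))
        + exp ((0 : ℝ) • X) * Z * ((-X) * exp ((0 : ℝ) • (-X)))) 0 :=
    ((hasDerivAt_exp_smul_const' X 0).mul_const Z).mul (hasDerivAt_exp_smul_const' (-X) 0)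
  have h2 := deriv_mem_lieSub hG h1 (fun t => by
    have := lieA_conj hZ (mem_lieA.1 hX t)
    rw [uexp_inv_val, uexp_val, uexp_val] at this
    rwa [smul_neg])
  simp only [zero_smul, exp_zero, mul_one, one_mul] at h2
  rw [mul_neg, ← sub_eq_add_neg] at h2
  exact h2

end Abstract

end Pool.Agent.Lib.MP_d9b062_al.H64
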